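import Pool.Agent.Lib.MP_d118f9_ag_R.SkI

/-!
# MP_d118f9_ag, relative part: the main theorem from its geometric inputs

Text: `/team-store/TEXT_d118f9_REL.md`.
-/

set_option autoImplicit false
set_option linter.unusedSectionVars false

noncomputable section

open Classical Fin Function

namespace Pool.Agent.MPd118f9.Rel

variable {k F K : Type} [Field k] [IsAlgClosed k] [CharZero k] [Field F] [Field K] [Algebra k F]
  [Algebra k K] [Algebra F K] [IsScalarTower k F K] [FiniteDimensional F K]

/-- If `G` is linear in each variable and vanishes on the elements of `S` then it vanishes on the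
span of `S`. -/
theorem span_induct {W B : Type} [AddCommGroup W] [Module F W] [AddCommGroup B] [Module F B]
    {j : ℕ} (S : Set W) (G : (Fin j → W) → B)
    (hadd : ∀ m l y z, G (update m l (y + z)) = G (update m l y) + G (update m l z))
    (hsmul : ∀ m l (a : F) y, G (update m l (a • y)) = a • G (update m l y))
    (hS : ∀ m, (∀ l, m l ∈ S) → G m = 0) (m : Fin j → W)
    (hm : ∀ l, m l ∈ Submodule.span F S) : G m = 0 := by
  have key : ∀ (T : Finset (Fin j)) (m : Fin j → W), (∀ l ∈ T, m l ∈ Submodule.span F S) →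
      (∀ l, l ∉ T → m l ∈ S) → G m = 0 := by
    intro T
    induction T using Finset.induction_on with
    | empty => exact fun m _ h2 => hS m fun l => h2 l (Finset.notMem_empty l)
    | insert a T ha ih =>
      intro m h1 h2
      have h3 : ∀ y ∈ Submodule.span F S, G (update m a y) = 0 := by
        intro y hy
        induction hy using Submodule.span_induction with
        | mem y hy =>
          refine ih _ (fun l hl => ?_) fun l hl => ?_
          · have hne : l ≠ a := fun h => ha (h ▸ hl)
            rw [update_of_ne hne]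
            exact h1 l (Finset.mem_insert_of_mem hl)
          · by_cases hla : l = a
            · rw [hla, update_self]
              exact hy
            · rw [update_of_ne hla]
              exact h2 l fun h => (Finset.mem_insert.1 h).elim hla hl
        | zero =>
          have h4 := hsmul m a 0 0
          rwa [zero_smul, zero_smul] at h4
        | add y z _ _ hy hz => rw [hadd, hy, hz, add_zero]
        | smul c y _ hy => rw [hsmul, hy, smul_zero]
      have h4 := h3 (m a) (h1 a (Finset.mem_insert_self _ _))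
      rwa [update_eq_self] at h4
  exact key Finset.univ m (fun l _ => hm l) fun l hl => absurd (Finset.mem_univ l) hl

/-- The linear map `c ↦ ∑ c_l v_l`. -/
def pV {g : ℕ} {U : Submodule F K} (v : Fin g → U) : (Fin g → F) →ₗ[F] U :=
  Fintype.linearCombination F v

theorem pV_apply {g : ℕ} {U : Submodule F K} (v : Fin g → U) (c : Fin g → F) :
    pV v c = ∑ l, c l • v l := Fintype.linearCombination_apply F v c

theorem pV_eb {g : ℕ} {U : Submodule F K} (v : Fin g → U) (i : Fin g) :
    pV v (eb F i) = v i := by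
  unfold pV
  rw [Fintype.linearCombination_apply_single, one_smul]

theorem dl_eb {g n : ℕ} {U : Submodule F K} (v : Fin g → U)
    (τ : (Fin g → F) [⋀^Fin n]→ₗ[F] F) (I : Fin (n + 1) → Fin g) :
    dl (pV v) τ (fun j => eb F (I j)) =
      ∑ l : Fin (n + 1), (-1 : ℤ) ^ (l : ℕ) • τ (fun q => eb F (I (l.succAbove q))) • v (I l) := by
  rw [dl_apply]
  refine Finset.sum_congr rfl fun l _ => ?_
  rw [pV_eb]
  rfl

/-- **The main theorem of the text REL**, from its geometric inputs. -/
theorem rel_gen [CharZero F] {WK : Dv k K} {U : Submodule F K} {g n : ℕ} (v : Fin g → U)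
    (hvL : ∀ l, (v l : K) ∈ L WK) {ρ : ℤ}
    (hloc : ∀ Q : Pt k F, ∃ idx : Fin (Module.finrank F U) → Fin g,
      (LinearIndependent F fun b => (v (idx b) : K)) ∧
      ∀ x ∈ U, LeQ Q WK x → ∃ a : Fin (Module.finrank F U) → F,
        (∀ b, LeOrd Q 0 (a b)) ∧ x = ∑ b, a b • (v (idx b) : K))
    (hsmall : ∀ c : Fin g → F, ∑ l, c l • (v l : K) = 0 →
      c ∈ Submodule.span F {m : Fin g → F | (∃ D : Dv k F, deg D ≤ ρ ∧ ∀ l, m l ∈ L D) ∧
        ∑ l, m l • (v l : K) = 0})
    (hclaim : ∀ i j : ℕ, j + i = n → i < Module.finrank F U → ∀ D' : Dv k F, deg D' ≤ j * ρ →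
      ∀ (u : Module.Basis (Fin (Module.finrank F U)) F U) (R : U [⋀^Fin (i + 1)]→ₗ[F] U),
      Coc LinearMap.id R → tr u u R = 0 → Reg WK D' R → R = 0)
    {s : (Fin (n + 1) → Fin g) → K} (hs : Alt s) (hsL : ∀ I, s I ∈ L WK) (hsU : ∀ I, s I ∈ U)
    (hv : wg (fun l => (v l : K)) s = 0) (Q : Pt k F) :
    ∃ τ : (Fin n → Fin g) → F, Alt τ ∧ (∀ I, LeOrd Q 0 (τ I)) ∧
      s = wg (fun l => (v l : K)) fun I => algebraMap F K (τ I) := by
  set r := Module.finrank F U with hr
  -- the local bases
  have hfinU : Module.Finite F U := inferInstance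
  have hbas : ∀ Q : Pt k F, ∃ (idx : Fin r → Fin g) (u : Module.Basis (Fin r) F U),
      (∀ b, u b = v (idx b)) ∧ ∀ x : U, GQ WK Q 0 (x : K) ↔ Cf Q u 0 x := by
    intro Q
    obtain ⟨idx, h1, h2⟩ := hloc Q
    have hli : LinearIndependent F fun b => v (idx b) :=
      LinearIndependent.of_comp U.subtype h1
    have hcard : Fintype.card (Fin r) = Module.finrank F U := by
      rw [Fintype.card_fin]
    have hu : ∀ b, (basisOfLinearIndependentOfCardEqFinrank' _ hli hcard) b = v (idx b) := by
      intro b
      rw [coe_basisOfLinearIndependentOfCardEqFinrank']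
    set u := basisOfLinearIndependentOfCardEqFinrank' _ hli hcard with hudef
    refine ⟨idx, u, hu, fun x => ⟨fun hx => ?_, fun hx => ?_⟩⟩
    · obtain ⟨a, ha1, ha2⟩ := h2 x x.2 (gq_zero_iff.1 hx)
      have h3 : x = ∑ b, a b • u b := by
        refine Subtype.ext ?_
        rw [ha2, Submodule.coe_sum]
        refine Finset.sum_congr rfl fun b _ => ?_
        rw [Submodule.coe_smul, hu]
      intro b
      rw [h3, u.repr_sum_self]
      exact ha1 b
    · have h3 : (x : K) = ∑ b, u.repr x b • (v (idx b) : K) := by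
        have h4 := congrArg Subtype.val (u.sum_repr x)
        rw [Submodule.coe_sum] at h4
        refine h4.symm.trans (Finset.sum_congr rfl fun b _ => ?_)
        rw [Submodule.coe_smul, hu]
      rw [h3]
      refine GQ.sum _ fun b _ => ?_
      have h4 : GQ WK Q 0 (v (idx b) : K) := gq_zero_iff.2 (mem_L_iff_leQ.1 (hvL _) Q)
      have h5 := h4.smul (hx b)
      rwa [add_zero] at h5
  obtain ⟨idx, u, hu, hucf⟩ := hbas Q
  have hpu : ∀ b, pV v (eb F (idx b)) = u b := fun b => by rw [pV_eb, hu]
  have hsurj : Surjective (pV v) := fun x => ⟨sec u idx x, proj_sec _ u idx hpu x⟩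
  -- the form
  have hsU' : Alt fun I => (⟨s I, hsU I⟩ : U) := by
    intro σ I
    refine Subtype.ext ?_
    rw [Submodule.coe_smul_of_tower]
    exact hs σ I
  set S := ofI (F := F) (fun I => (⟨s I, hsU I⟩ : U)) hsU' with hS
  have hSI : ∀ I, (S (fun j => eb F (I j)) : K) = s I := fun I => by
    rw [hS, ofI_single]
  have hcoc : Coc (pV v) S := by
    refine ext_eb fun I => ?_
    rw [wdg_apply]
    have h1 : wg (fun l => (v l : K)) s I = 0 := congrFun hv I
    rw [wg] at h1
    rw [AlternatingMap.zero_apply]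
    refine Eq.trans (Finset.sum_congr rfl fun l _ => ?_) h1
    rw [mk_apply, pV_eb]
    have h2 : (S (l.removeNth fun j => eb F (I j)) : K) = s fun q => I (l.succAbove q) :=
      hSI fun q => I (l.succAbove q)
    rw [h2, zsmul_eq_mul]
    push_cast
    rfl
  obtain ⟨τ, hτ1, hτ2⟩ := skeleton (pV v) hsurj u (fun b => eb F (idx b)) hpu
    (fun m s => m = n ∧ Coc (pV v) s ∧
      ∀ I : Fin (m + 1) → Fin g, (s (fun j => eb F (I j)) : K) ∈ L WK)
    (fun m τ => ∀ I : Fin m → Fin g, LeOrd Q 0 (τ (fun j => eb F (I j))))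
    (by
      rintro m s ⟨-, h1, -⟩
      by_cases hx : ∃ x, pV v x ≠ 0
      · obtain ⟨x, hx⟩ := hx
        exact van_of_coc h1 hx
      · push Not at hx
        intro c _
        obtain ⟨y, hy⟩ := hsurj (s c)
        rw [← hy, hx y])
    (fun _ I => LeOrd.zero _ _)
    (by
      rintro m s τ q ⟨-, h1, h2⟩ hτ hq I
      rw [AlternatingMap.add_apply, AlternatingMap.smul_apply, smul_eq_mul]
      refine (hτ I).add (leOrd_inv_nat q ?_)
      rw [tr_apply]
      refine leOrd_sum _ fun b _ => ?_
      have h3 : (Fin.cons (eb F (idx b)) fun j => eb F (I j) : Fin (m + 1) → Fin g → F) =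
          fun j => eb F ((Fin.cons (idx b) I : Fin (m + 1) → Fin g) j) := by
        funext j
        refine Fin.cases ?_ (fun j => ?_) j
        · rfl
        · rfl
      rw [h3]
      have h4 : Cf Q u 0 ((s - dl (pV v) τ) fun j =>
          eb F ((Fin.cons (idx b) I : Fin (m + 1) → Fin g) j)) := by
        rw [AlternatingMap.sub_apply]
        refine Cf.sub ((hucf _).1 (gq_zero_iff.2 (mem_L_iff_leQ.1 (h2 _) Q))) ?_
        rw [dl_eb]
        refine Cf.sum _ fun l _ => Cf.zsmul _ ?_
        have h5 := Cf.smul (hτ fun q => (Fin.cons (idx b) I : Fin (m + 1) → Fin g)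
          (l.succAbove q)) ((hucf _).1 (gq_zero_iff.2 (mem_L_iff_leQ.1
            (hvL ((Fin.cons (idx b) I : Fin (m + 1) → Fin g) l)) Q)))
        rwa [add_zero] at h5
      exact h4 b)
    (by
      rintro j i s ⟨hn, h1, h2⟩ hi ⟨τ, hτ⟩ m hm g' hg'
      have hne : (r : F) - i ≠ 0 := by
        rw [sub_ne_zero]
        exact_mod_cast (by omega : r ≠ i)
      -- independence of the section
      have hindep : ∀ m : Fin j → Fin g → F, (∀ l, pV v (m l) = 0) → ∀ g₁ g₂ : U →ₗ[F] (Fin g → F),
          (∀ x, pV v (g₁ x) = x) → (∀ x, pV v (g₂ x) = x) →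
          rho u ((pe (a := i + 1) s m).compLinearMap g₁) =
            rho u ((pe (a := i + 1) s m).compLinearMap g₂) := by
        intro m hm g₁ g₂ hg₁ hg₂
        rw [← rho_pe_sub (pV v) u hne s τ m hm g₁ hg₁, ← rho_pe_sub (pV v) u hne s τ m hm g₂ hg₂]
        congr 1
        ext x
        rw [AlternatingMap.compLinearMap_apply, AlternatingMap.compLinearMap_apply]
        refine congrArg Subtype.val (pe_desc (pV v) (s - dl (pV v) τ) hτ m hm _ _ fun l => ?_)
        rw [hg₁, hg₂]
      refine span_induct (F := F) {m : Fin g → F | (∃ D : Dv k F, deg D ≤ ρ ∧ ∀ l, m l ∈ L D) ∧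
        ∑ l, m l • (v l : K) = 0}
        (fun m => rho u ((pe (a := i + 1) s m).compLinearMap g')) (fun m l y z => ?_)
        (fun m l a y => ?_) (fun m hm' => ?_) m fun l => ?_
      · show rho u ((pe (a := i + 1) s (update m l (y + z))).compLinearMap g') = _
        have h3 := pe_update_add (a := i + 1) s m l y z
        rw [h3, ← rho_add]
        rfl
      · show rho u ((pe (a := i + 1) s (update m l (a • y))).compLinearMap g') = _
        have h3 := pe_update_smul (a := i + 1) s m l a y
        rw [h3, ← rho_smul]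
        rfl
      · have hm0 : ∀ l, pV v (m l) = 0 := by
          intro l
          refine Subtype.ext ?_
          rw [pV_apply, Submodule.coe_sum]
          exact (hm' l).2
        choose D hD1 hD2 using fun l => (hm' l).1
        refine hclaim i j (by omega) hi (∑ l, D l) ?_ u _ ?_ ?_ ?_
        · rw [deg_sum]
          have h3 := Finset.sum_le_sum fun (l : Fin j) (_ : l ∈ Finset.univ) => hD1 l
          rw [Finset.sum_const, Finset.card_univ, Fintype.card_fin, nsmul_eq_mul] at h3
          exact h3
        · refine coc_rho u ?_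
          have h3 := coc_comp (coc_pe (a := i + 1) h1 m hm0) g'
          have h4 : (pV v).comp g' = LinearMap.id := LinearMap.ext hg'
          rwa [h4] at h3
        · exact tr_rho u hne _
        · intro Q' x ν hx
          obtain ⟨idx', u', hu', hcf'⟩ := hbas Q'
          have hpu' : ∀ b, pV v (eb F (idx' b)) = u' b := fun b => by rw [pV_eb, hu']
          show GQ WK Q' _ ((rho u ((pe (a := i + 1) s m).compLinearMap g') x : U) : K)
          rw [hindep m hm0 g' (sec u' idx') hg' (proj_sec _ u' idx' hpu'), rho_indep u u',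
            gq_iff_cf u' hcf']
          have h3 : (∑ l, D l) Q' = ∑ l, D l Q' := by
            rw [Finsupp.coe_finsetSum, Finset.sum_apply]
          rw [h3]
          refine cf_rho hi u' idx' s (fun I => ?_) m (fun l => D l Q') (fun l t => ?_) x ν
            fun l => (gq_iff_cf u' hcf' _ _).1 (hx l)
          · exact (hcf' _).1 (gq_zero_iff.2 (mem_L_iff_leQ.1 (h2 I) Q'))
          · rcases hD2 l t with h4 | h4
            · exact Or.inl h4
            · exact Or.inr (h4 Q')
      · refine hsmall (m l) ?_
        have h3 := congrArg Subtype.val (hm l)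
        rw [pV_apply, Submodule.coe_sum] at h3
        exact h3)
    n S ⟨rfl, hcoc, fun I => by rw [hSI]; exact hsL I⟩
  refine ⟨fun I => τ (fun j => eb F (I j)), alt_of_form τ, hτ1, ?_⟩
  funext I
  rw [← hSI I, hτ2, dl_eb, wg, Submodule.coe_sum]
  refine Finset.sum_congr rfl fun l _ => ?_
  have h1 : (((-1 : ℤ) ^ (l : ℕ) • τ (fun q => eb F (I (l.succAbove q))) • v (I l) : U) : K) =
      (-1 : ℤ) ^ (l : ℕ) • (τ (fun q => eb F (I (l.succAbove q))) • (v (I l) : K)) := rfl
  rw [h1, zsmul_eq_mul, Algebra.smul_def]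
  push_cast
  ring

end Pool.Agent.MPd118f9.Rel
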