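import Pool.Agent.Lib.MP_d118f9_ag_G.P2
import Pool.Agent.Lib.MP_d118f9_ag_G.P3

/-!
# MP_d118f9_ag, the theorem PC: relations of degree one (genus zero)

Text: `/team-store/TEXT_d118f9_PC.md`.
-/

set_option autoImplicit false
set_option linter.unusedSectionVars false

noncomputable section

open Classical

namespace Pool.Agent.MPd118f9

section Pencil

variable {k F : Type} [Field k] [IsAlgClosed k] [CharZero k] [Field F] [Algebra k F]

/-- Vectors whose values at a point are independent are independent. -/
private theorem pca_indep (hF : IsCurve k F) (P : Pt k F) {q m : ℕ} (X : Fin q → Fin m → k)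
    (hX : LinearIndependent k X) (s : Fin q → Fin m → F)
    (hs : ∀ j i, LeOrd P 1 (s j i - algebraMap k F (X j i))) : LinearIndependent F s := by
  rw [Fintype.linearIndependent_iff]
  intro a ha
  by_contra hcon
  push Not at hcon
  have hne : (Finset.univ.filter fun j => a j ≠ 0).Nonempty := by
    obtain ⟨j, hj⟩ := hcon
    exact ⟨j, Finset.mem_filter.2 ⟨Finset.mem_univ _, hj⟩⟩
  obtain ⟨j0, hj0, hmin⟩ := Finset.exists_min_image _ (fun j => P.ord (a j)) hne
  have ha0 : a j0 ≠ 0 := (Finset.mem_filter.1 hj0).2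
  -- normalise
  have hb : ∀ j, LeOrd P 0 (a j / a j0) := by
    intro j
    by_cases hj : a j = 0
    · rw [hj, zero_div]; exact LeOrd.zero _ _
    · refine Or.inr ?_
      rw [div_eq_mul_inv, P.ord_mul hj (inv_ne_zero ha0), P.ord_inv]
      have := hmin j (Finset.mem_filter.2 ⟨Finset.mem_univ _, hj⟩)
      linarith
  have hc : ∀ j, ∃ c : k, LeOrd P 1 (a j / a j0 - algebraMap k F c) := by
    intro j
    rcases hb j with h | h
    · exact ⟨0, by rw [h, map_zero, sub_zero]; exact LeOrd.zero _ _⟩
    · obtain ⟨c, h1 | h1⟩ := hF.exists_const P h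
      · exact ⟨c, by rw [h1, sub_self]; exact LeOrd.zero _ _⟩
      · exact ⟨c, Or.inr (by omega)⟩
  choose c hc using hc
  have hconst : ∀ x : k, LeOrd P 1 (algebraMap k F x) → x = 0 := by
    intro x hx
    rcases hx with h | h
    · exact (map_eq_zero_iff _ (algebraMap k F).injective).1 h
    · rw [P.ord_algebraMap] at h
      omega
  have hsum : ∀ (J : Finset (Fin q)) (f : Fin q → F), (∀ j, LeOrd P 1 (f j)) →
      LeOrd P 1 (∑ j ∈ J, f j) := by
    intro J f hf
    induction J using Finset.induction_on with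
    | empty => rw [Finset.sum_empty]; exact LeOrd.zero _ _
    | insert j J hj ih => rw [Finset.sum_insert hj]; exact (hf j).add ih
  have hzero : ∀ i, ∑ j, c j * X j i = 0 := by
    intro i
    apply hconst
    have h1 : ∑ j, a j / a j0 * s j i = 0 := by
      have h2 := congrFun ha i
      simp only [Finset.sum_apply, Pi.smul_apply, smul_eq_mul, Pi.zero_apply] at h2
      have h3 : ∑ j, a j / a j0 * s j i = (∑ j, a j * s j i) / a j0 := by
        rw [Finset.sum_div]
        exact Finset.sum_congr rfl fun j _ => by ring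
      rw [h3, h2, zero_div]
    have h2 : algebraMap k F (∑ j, c j * X j i) =
        ∑ j, (-(a j / a j0 - algebraMap k F (c j)) * algebraMap k F (X j i) -
          a j / a j0 * (s j i - algebraMap k F (X j i))) := by
      rw [map_sum, ← sub_eq_zero, ← Finset.sum_sub_distrib]
      rw [← h1]
      refine Finset.sum_congr rfl fun j _ => ?_
      rw [map_mul]
      ring
    rw [h2]
    apply hsum
    intro j
    have h3 := (hc j).neg.mul (LeOrd.const P (X j i))
    have h4 := (hb j).mul (hs j i)
    rw [add_zero] at h3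
    rw [zero_add] at h4
    exact h3.sub h4
  have hc0 : ∀ j, c j = 0 := by
    rw [Fintype.linearIndependent_iff] at hX
    apply hX c
    funext i
    simp only [Finset.sum_apply, Pi.smul_apply, smul_eq_mul, Pi.zero_apply]
    exact hzero i
  have h5 := hc j0
  rw [div_self ha0, hc0 j0, map_zero, sub_zero, ← map_one (algebraMap k F)] at h5
  exact one_ne_zero (hconst 1 h5)

/-- An effective divisor of degree zero is zero. -/
theorem pca_eff {D : Dv k F} (h : 0 ≤ D) (hd : deg D = 0) : D = 0 := by
  by_contra hD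
  obtain ⟨P, hP⟩ : ∃ P, D P ≠ 0 := by
    by_contra hcon
    push Not at hcon
    exact hD (Finsupp.ext hcon)
  have hP0 : 0 ≤ D P := h P
  have hle : Finsupp.single P 1 ≤ D := by
    intro Q
    have hQ : 0 ≤ D Q := h Q
    rw [Finsupp.single_apply]
    split_ifs with h
    · rw [← h]
      omega
    · exact hQ
  have h6 := deg_mono hle
  rw [deg_single] at h6
  omega

/-- Divisors of degree zero are principal in genus zero. -/
theorem pca_principal (hF : IsCurve k F) (hg : genus k F = 0) {A : Dv k F} (hA : deg A = 0) :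
    ∃ u : F, u ≠ 0 ∧ dv k u = -A := by
  obtain ⟨W, hW⟩ := hF.exists_can
  have h1 := hW.riemann_roch hF A
  rw [hA, hg] at h1
  have h2 : 0 < ell A := by
    push_cast at h1
    omega
  obtain ⟨u, hu⟩ : ∃ u : L A, u ≠ 0 := by
    by_contra hcon
    push Not at hcon
    have h3 : Subsingleton (L A) := ⟨fun a b => by rw [hcon a, hcon b]⟩
    have h4 : ell A = 0 := Module.finrank_zero_of_subsingleton
    omega
  have hu0 : (u : F) ≠ 0 := fun h => hu (Subtype.ext h)
  refine ⟨u, hu0, ?_⟩
  have h3 : 0 ≤ dv k (u : F) + A := by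
    intro P
    have h4 := (mem_L_of_ne hu0).1 u.2 P
    rw [Finsupp.add_apply, hF.dv_apply hu0]
    show (0 : ℤ) ≤ _
    linarith
  have h4 := pca_eff h3 (by rw [deg_add, hF.deg_dv hu0, hA, add_zero])
  exact eq_neg_of_add_eq_zero_left h4

end Pencil

variable {k F K : Type} [Field k] [IsAlgClosed k] [CharZero k] [Field F] [Field K] [Algebra k F]
  [Algebra k K] [Algebra F K] [IsScalarTower k F K] [FiniteDimensional F K]

/-- P4 for genus zero, with relations of degree one. -/
theorem small_zero (hF : IsCurve k F) (hK : IsCurve k K) (hg0 : genus k F = 0) {W : Dv k F}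
    {WK : Dv k K} (h : IsRel W WK) {Ψ : ℤ} (hP : Prim k F K Ψ) (hΨ : 1 ≤ Ψ) {g : ℕ}
    (v : Module.Basis (Fin g) k (L WK)) (c : Fin g → F) (hc : ∑ l, c l • (v l : K) = 0) :
    c ∈ Submodule.span F {m : Fin g → F | (∃ D : Dv k F, deg D ≤ 1 ∧
      ∀ l, m l ∈ L D) ∧ ∑ l, m l • (v l : K) = 0} := by
  have := hF.infinite_pt
  have := hK.finDim WK
  have hd0 : 0 < Module.finrank F K := Module.finrank_pos
  have hbd := isBdl_VB hF hK h hP
  -- the elements of `L WK` have trace zero
  have hTr : ∀ x ∈ L WK, Algebra.trace F K x = 0 := by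
    intro x hx
    have h1 : Algebra.trace F K x ∈ L W := by
      by_cases h0 : Algebra.trace F K x = 0
      · exact Or.inl h0
      · refine Or.inr fun Q => (h.tr Q x fun P _ => ?_).resolve_left h0
        rcases hx with h2 | h2
        · exact Or.inl h2
        · exact Or.inr (h2 P)
    have h2 : ell W = 0 := by rw [h.canF.2, hg0]
    have h3 := hF.finDim W
    have h4 : L W = ⊥ := Submodule.finrank_eq_zero.1 h2
    rw [h4] at h1
    exact h1
  have hpull0 : WK + pull K (0 : Dv k F) = WK := by
    have : pull K (0 : Dv k F) = 0 := by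
      ext P
      rw [pull_apply hK]
      simp
    rw [this, add_zero]
  have hVB : ∀ x, x ∈ VB WK (0 : Dv k F) ↔ x ∈ L WK := by
    intro x
    constructor
    · intro hx
      have := hx.1
      rwa [hpull0] at this
    · intro hx
      refine ⟨by rwa [hpull0], hTr x hx⟩
  obtain ⟨y, y', hyy⟩ := exists_pair_ne (Pt k F)
  set D0 : Dv k F := Finsupp.single y' 1 with hD0
  have hD0n : 0 ≤ D0 := by
    rw [hD0, Finsupp.single_nonneg]
    norm_num
  have dD0 : deg D0 = 1 := by rw [hD0, deg_single]
  set A : Dv k F := D0 - Finsupp.single y 1 with hA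
  have dA : deg A = 0 := by rw [hA, deg_sub, dD0, deg_single]; ring
  have hAD0 : A ≤ D0 := by
    rw [hA]
    apply sub_le_self
    rw [Finsupp.single_nonneg]
    norm_num
  have hAy : A y = -1 := by
    rw [hA, hD0, Finsupp.sub_apply, Finsupp.single_eq_same, Finsupp.single_apply,
      if_neg (fun e => hyy e.symm)]
    ring
  obtain ⟨u₁, n1, hdv⟩ := pca_principal hF hg0 dA
  have hu₁ : u₁ ∈ L A := by
    refine Or.inr fun P => ?_
    rw [← hF.dv_apply n1, hdv, Finsupp.neg_apply]
  have hord : LeOrd y 1 u₁ := by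
    refine Or.inr ?_
    rw [← hF.dv_apply n1, hdv, Finsupp.neg_apply, hAy]
    norm_num
  -- the bundle at `y`
  have hBy : -Finsupp.single y 1 ≤ (0 : Dv k F) := by
    rw [neg_nonpos, Finsupp.single_nonneg]
    norm_num
  have := hbd.fin (-Finsupp.single y 1)
  set q := Module.finrank k (VB WK (-Finsupp.single y 1 : Dv k F)) with hq
  let x : Module.Basis (Fin q) k (VB WK (-Finsupp.single y 1 : Dv k F)) := Module.finBasis k _
  have hg₁ : ∀ j, u₁⁻¹ • (x j : K) ∈ VB WK (-D0) := by
    intro j
    have h1 := hbd.smul (inv_ne_zero n1) (x j).2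
    rw [hF.dv_inv n1, hdv, neg_neg] at h1
    have h2 : (-Finsupp.single y 1 : Dv k F) - A = -D0 := by
      rw [hA]
      abel
    rw [h2] at h1
    exact h1
  have hBD : -D0 ≤ (0 : Dv k F) := by
    rw [neg_nonpos]
    exact hD0n
  have hxL : ∀ j, (x j : K) ∈ L WK := fun j => (hVB _).1 (hbd.mono hBy (x j).2)
  have hgL : ∀ j, u₁⁻¹ • (x j : K) ∈ L WK := fun j => (hVB _).1 (hbd.mono hBD (hg₁ j))
  have hrepr : ∀ w : L WK, ∑ i, algebraMap k F (v.repr w i) • (v i : K) = (w : K) := by
    intro w
    have h1 := congrArg (Submodule.subtype (L WK)) (v.sum_repr w)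
    rw [map_sum] at h1
    simp only [map_smul, Submodule.subtype_apply] at h1
    rw [← h1]
    exact Finset.sum_congr rfl fun i _ => algebraMap_smul F _ _
  set X : Fin q → Fin g → k := fun j => v.repr ⟨x j, hxL j⟩ with hX
  set G1 : Fin q → Fin g → k := fun j => v.repr ⟨u₁⁻¹ • (x j : K), hgL j⟩ with hG1
  set s : Fin q → Fin g → F := fun j i => algebraMap k F (X j i) -
    u₁ * algebraMap k F (G1 j i) with hs
  have hXi : LinearIndependent k X := by
    let ι : VB WK (-Finsupp.single y 1 : Dv k F) →ₗ[k] (Fin g → k) :=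
      v.equivFun.toLinearMap ∘ₗ Submodule.inclusion (fun z hz =>
        (hVB z).1 (hbd.mono hBy hz) : VB WK (-Finsupp.single y 1 : Dv k F) ≤ L WK)
    have h1 : X = fun j => ι (x j) := by
      funext j
      rfl
    rw [h1]
    apply LinearIndependent.map' x.linearIndependent ι
    rw [LinearMap.ker_eq_bot]
    exact v.equivFun.injective.comp (Submodule.inclusion_injective _)
  have hsi : LinearIndependent F s := by
    apply pca_indep hF y X hXi s
    intro j i
    have h1 : s j i - algebraMap k F (X j i) = -(u₁ * algebraMap k F (G1 j i)) := by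
      simp only [hs]; ring
    rw [h1]
    have h2 := hord.mul (LeOrd.const y (G1 j i))
    rw [add_zero] at h2
    exact h2.neg
  set μ : (Fin g → F) →ₗ[F] K := Fintype.linearCombination F (fun i => (v i : K)) with hμ
  have hμa : ∀ w, μ w = ∑ i, w i • (v i : K) := fun w => by
    rw [hμ, Fintype.linearCombination_apply]
  set S : Submodule F (Fin g → F) := Submodule.span F {m' : Fin g → F | (∃ D : Dv k F,
    deg D ≤ 1 ∧ ∀ i, m' i ∈ L D) ∧ ∑ i, m' i • (v i : K) = 0} with hS
  have hconstL : ∀ (x : k), algebraMap k F x ∈ L D0 := by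
    intro x
    have := (L D0).smul_mem x (one_mem_L hD0n)
    rwa [Algebra.smul_def, mul_one] at this
  have hmulL : ∀ (w : F) (x : k), w ∈ L A → w * algebraMap k F x ∈ L D0 := by
    intro w x hw
    have := (L D0).smul_mem x (L_mono hAD0 hw)
    rwa [Algebra.smul_def, mul_comm] at this
  have hsS : ∀ j, s j ∈ S := by
    intro j
    apply Submodule.subset_span
    refine ⟨⟨D0, dD0.le, fun i => (L D0).sub_mem (hconstL _) (hmulL _ _ hu₁)⟩, ?_⟩
    have e1 := hrepr ⟨x j, hxL j⟩
    have e2 := hrepr ⟨u₁⁻¹ • (x j : K), hgL j⟩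
    simp only at e1 e2
    have e4 : ∑ i, s j i • (v i : K) = (x j : K) - u₁ • (u₁⁻¹ • (x j : K)) := by
      conv_rhs => rw [← e2]
      conv_rhs =>
        enter [1]
        rw [← e1]
      rw [Finset.smul_sum, ← Finset.sum_sub_distrib]
      refine Finset.sum_congr rfl fun i _ => ?_
      simp only [hs, hX, hG1]
      rw [sub_smul, mul_smul]
    rw [e4, smul_smul, mul_inv_cancel₀ n1, one_smul, sub_self]
  have hSM : S ≤ LinearMap.ker μ := by
    apply Submodule.span_le.2
    rintro w ⟨-, hw⟩
    rw [SetLike.mem_coe, LinearMap.mem_ker, hμa]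
    exact hw
  obtain ⟨u, hu, huV⟩ := exists_indep hF hK h hP (D := 0) (by rw [deg_zero]; linarith)
  have hrank : Module.finrank F K - 1 ≤ Module.finrank F (LinearMap.range μ) := by
    have h1 : ∀ i, u i ∈ LinearMap.range μ := by
      intro i
      have h2 : u i ∈ L WK := by
        refine (hVB _).1 ?_
        have h3 := huV i
        rwa [neg_zero] at h3
      refine ⟨fun l => algebraMap k F (v.repr ⟨u i, h2⟩ l), ?_⟩
      rw [hμa]
      exact hrepr ⟨u i, h2⟩
    have h2 : LinearIndependent F (fun i => (⟨u i, h1 i⟩ : LinearMap.range μ)) := by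
      apply LinearIndependent.of_comp (LinearMap.range μ).subtype
      exact hu
    have := h2.fintype_card_le_finrank
    rwa [Fintype.card_fin] at this
  have hdim := LinearMap.finrank_range_add_finrank_ker μ
  rw [Module.finrank_fintype_fun_eq_card, Fintype.card_fin] at hdim
  have hqS : q ≤ Module.finrank F S := by
    have h2 : LinearIndependent F (fun j => (⟨s j, hsS j⟩ : S)) := by
      apply LinearIndependent.of_comp S.subtype
      exact hsi
    have := h2.fintype_card_le_finrank
    rwa [Fintype.card_fin] at this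
  have r2 := hbd.rr (B := -Finsupp.single y 1) (by rw [deg_neg, deg_single]; linarith)
  have hm : ell WK = g := by
    unfold ell
    rw [Module.finrank_eq_card_basis v, Fintype.card_fin]
  rw [h.canK.2] at hm
  rw [deg_neg, deg_single, ← hq, hg0, hm] at r2
  have hle : Module.finrank F (LinearMap.ker μ) ≤ Module.finrank F S := by
    have h1 : (q : ℤ) = g - ((Module.finrank F K : ℤ) - 1) := by
      rw [r2]
      push_cast
      ring
    omega
  have hEq : S = LinearMap.ker μ := Submodule.eq_of_le_of_finrank_le hSM hle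
  rw [hEq, LinearMap.mem_ker, hμa]
  exact hc

end Pool.Agent.MPd118f9
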