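import Pool.Agent.Lib.MP_d118f9_ag_R.PCa
import Pool.Agent.Lib.MP_d118f9_ag_R.SkJ
import Pool.Agent.Lib.MP_d118f9_ag_G.A

/-!
# MP_d118f9_ag, the theorem PC: constants (genus zero)

Text: `/team-store/TEXT_d118f9_PC.md`.
-/

set_option autoImplicit false
set_option linter.unusedSectionVars false

noncomputable section

open Classical

namespace Pool.Agent.MPd118f9

/-- An `F`-valued form `φ` with few arguments that is killed by the product with `v` is zero. -/
private theorem pcb_uniq {F K : Type} [Field F] [Field K] [Algebra F K] [FiniteDimensional F K]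
    {g n m : ℕ} (v : Fin g → K) (idx : Fin m → Fin g)
    (hind : LinearIndependent F fun b => v (idx b)) (hnm : n < m) (φ : (Fin n → Fin g) → F)
    (h : wg v (fun I => algebraMap F K (φ I)) = 0) : φ = 0 := by
  funext I
  rw [Pi.zero_apply]
  by_contra hne
  have hmem : ∀ l : Fin g, v l ∈ Submodule.span F (Set.range fun j => v (I j)) := by
    intro l
    have h1 := congrFun h (Fin.cons l I)
    simp only [wg, Pi.zero_apply] at h1
    rw [Fin.sum_univ_succ] at h1
    simp only [Fin.val_zero, pow_zero, one_mul, Fin.cons_zero, Fin.zero_succAbove,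
      Fin.cons_succ] at h1
    have h2 : v l * algebraMap F K (φ I) ∈
        Submodule.span F (Set.range fun j => v (I j)) := by
      rw [add_eq_zero_iff_eq_neg] at h1
      rw [h1]
      refine Submodule.neg_mem _ (Submodule.sum_mem _ fun i _ => ?_)
      have h3 : ∀ (N : ℕ) (a b : K) (f : F), b = algebraMap F K f →
          (-1) ^ N * (a * b) = ((-1) ^ N * f) • a := by
        intro N a b f hb
        rw [hb, Algebra.smul_def, map_mul, map_pow, map_neg, map_one]
        ring
      rw [h3 _ _ _ _ rfl]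
      exact Submodule.smul_mem _ _ (Submodule.subset_span ⟨i, rfl⟩)
    have h4 : v l = (φ I)⁻¹ • (v l * algebraMap F K (φ I)) := by
      have h5 : algebraMap F K (φ I) ≠ 0 :=
        (map_ne_zero_iff _ (algebraMap F K).injective).2 hne
      rw [Algebra.smul_def, map_inv₀]
      field_simp
    rw [h4]
    exact Submodule.smul_mem _ _ h2
  have h6 : Submodule.span F (Set.range fun b => v (idx b)) ≤
      Submodule.span F (Set.range fun j => v (I j)) := by
    rw [Submodule.span_le]
    rintro x ⟨b, rfl⟩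
    exact hmem _
  have h7 := Submodule.finrank_mono h6
  rw [finrank_span_eq_card hind, Fintype.card_fin] at h7
  have h8 : Module.finrank F (Submodule.span F (Set.range fun j => v (I j))) ≤ n := by
    have h9 := finrank_range_le_card (R := F) fun j => v (I j)
    rw [Fintype.card_fin] at h9
    exact h9
  omega

variable {k F K : Type} [Field k] [IsAlgClosed k] [CharZero k] [Field F] [Field K] [Algebra k F]
  [Algebra k K] [Algebra F K] [IsScalarTower k F K] [FiniteDimensional F K]

/-- The theorem REL for genus zero with the exact constants. -/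
theorem rel_zero (hF : IsCurve k F) (hK : IsCurve k K) (hg0 : genus k F = 0) {W : Dv k F}
    {WK : Dv k K} (h : IsRel W WK) {Ψ : ℤ} (hP : Prim k F K Ψ) (hΨ : 1 ≤ Ψ) {n : ℕ}
    (hn : (n : ℤ) + 1 ≤ Ψ) {g : ℕ}
    (v : Module.Basis (Fin g) k (L WK)) {s : (Fin (n + 1) → Fin g) → K} (hs : Alt s)
    (hsL : ∀ I, s I ∈ L WK) (hv : wg (fun l => (v l : K)) s = 0) (Q : Pt k F) :
    ∃ τ : (Fin n → Fin g) → F, Alt τ ∧ (∀ I, LeOrd Q 0 (τ I)) ∧
      s = wg (fun l => (v l : K)) fun I => algebraMap F K (τ I) := by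
  have hc : CharZero F := charZero_of_injective_algebraMap (algebraMap k F).injective
  obtain ⟨Q₀⟩ := nonempty_pt hF
  set D₀ : Dv k F := Finsupp.single Q₀ (Ψ - 1) with hD₀
  have hdeg₀ : deg D₀ = Ψ - 1 := deg_single _ _
  obtain ⟨w, hw1, hw2⟩ := exists_indep hF hK h hP (D := D₀) (by rw [hdeg₀]; linarith)
  refine Rel.rel_gen (ρ := 1)
    (fun l => (⟨v l, mem_Uh hF hK h (v l).2⟩ : Uh k F K)) (fun l => (v l).2)
    (local_basis hF hK h hP (by linarith) v)
    (fun c hc' => small_zero hF hK hg0 h hP hΨ v c hc') ?_ hs hsL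
    (fun I => mem_Uh hF hK h (hsL I)) hv Q
  intro i j hij hir D' hD' u R hR htr hreg
  have hfr := finrank_Uh (k := k) (F := F) (K := K)
  have hg : ¬ 1 ≤ genus k F := by omega
  have hU : ∀ x, x ∈ Uh k F K ↔ Algebra.trace F K x = 0 := by
    intro x
    unfold Uh
    rw [if_neg hg, LinearMap.mem_ker]
  rw [if_neg hg] at hfr
  have hw3 : LinearIndependent F fun b : Fin (Module.finrank F (Uh k F K)) =>
      w (Fin.cast hfr b) := hw1.comp _ (Fin.cast_injective _)
  refine Rel.claim_zero hF hK hU u hw3 (D₀ := D₀) (fun b => hw2 _) hir hR htr hreg fun hi => ?_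
  rw [hdeg₀]
  have h1 : (1 : ℤ) ≤ i := by exact_mod_cast hi
  have h4 : (j : ℤ) + i = n := by exact_mod_cast hij
  have h3 : Ψ - 1 ≤ (i : ℤ) * (Ψ - 1) := by nlinarith
  linarith

/-- The case `h = 0` with the exact constants. -/
theorem HC_zero_sharp (hF : IsCurve k F) (hK : IsCurve k K) (hg : genus k F = 0) {W : Dv k F}
    {WK : Dv k K} (h : IsRel W WK) {Ψ : ℤ} (hP : Prim k F K Ψ) {n : ℕ} (hΨ1 : 1 ≤ Ψ)
    (hΨ : (n : ℤ) + 1 ≤ Ψ) (hn : n + 2 ≤ Module.finrank F K) : HC WK n := by
  have hfd : FiniteDimensional k (L WK) := hK.finDim WK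
  obtain ⟨Q0⟩ := nonempty_pt hF
  refine ⟨Module.finrank k (L WK), Module.finBasis k (L WK), ?_⟩
  generalize Module.finBasis k (L WK) = v
  intro s hs hsL hv
  have hr := fun Q : Pt k F => rel_zero hF hK hg h hP hΨ1 hΨ v hs hsL hv Q
  choose τ hτA hτO hτs using hr
  obtain ⟨idx, hidx, -⟩ := local_basis hF hK h hP hΨ1 v Q0
  have hU : Module.finrank F (Uh k F K) = Module.finrank F K - 1 := by
    rw [finrank_Uh, hg]
    simp
  have heq : ∀ Q, τ Q = τ Q0 := by
    intro Q
    have h1 : wg (fun l => (v l : K)) (fun I => algebraMap F K ((τ Q - τ Q0) I)) = 0 := by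
      have h2 : (fun I => algebraMap F K ((τ Q - τ Q0) I)) =
          (fun I => algebraMap F K (τ Q I)) - fun I => algebraMap F K (τ Q0 I) := by
        funext I
        simp only [Pi.sub_apply, map_sub]
      rw [h2, wg_sub, ← hτs Q, ← hτs Q0, sub_self]
    have h3 := pcb_uniq (fun l => (v l : K)) idx hidx (by omega) _ h1
    exact sub_eq_zero.1 h3
  have hc : ∀ I, ∃ c : k, τ Q0 I = algebraMap k F c := by
    intro I
    apply hF.mem_L_zero.1
    by_cases h0 : τ Q0 I = 0
    · exact Or.inl h0
    · refine Or.inr fun P => ?_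
      have h1 := (hτO P I).resolve_left (by rw [heq P]; exact h0)
      rw [heq P] at h1
      have h2 : (0 : Dv k F) P = 0 := rfl
      rw [h2]
      omega
  choose c hc using hc
  refine ⟨c, ?_, ?_⟩
  · intro σ I
    apply (algebraMap k F).injective
    rw [map_zsmul, ← hc, ← hc]
    exact hτA Q0 σ I
  · have h1 : (fun I => algebraMap F K (τ Q0 I)) = fun I => algebraMap k K (c I) := by
      funext I
      rw [hc I, ← IsScalarTower.algebraMap_apply k F K]
    rw [← h1]
    exact hτs Q0

end Pool.Agent.MPd118f9
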