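import Pool.Agent.Lib.MP_d118f9_ag_R.PCb

/-!
# MP_d118f9_ag, the theorem PC: primitive covers of the line

Text: `/team-store/TEXT_d118f9_PC.md`.
-/

set_option autoImplicit false
set_option linter.unusedSectionVars false

noncomputable section

open Classical

namespace Pool.Agent.MPd118f9

section Line

variable {k F : Type} [Field k] [IsAlgClosed k] [CharZero k] [Field F] [Algebra k F]

theorem line_curve {z : F} (hz : ∀ c : k, z ≠ algebraMap k F c)
    (htop : IntermediateField.adjoin k {z} = ⊤) : IsCurve k F := by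
  refine ⟨z, transcendental_of_ne hz, ?_⟩
  rw [htop]
  have h1 : Module.finrank (⊤ : IntermediateField k F) F = 1 := IntermediateField.finrank_top
  exact Module.finite_of_finrank_pos (by omega)

theorem line_deg (hF : IsCurve k F) {z : F} (hz : ∀ c : k, z ≠ algebraMap k F c)
    (htop : IntermediateField.adjoin k {z} = ⊤) : deg (poles k z) = 1 := by
  rw [hF.deg_poles hz, htop, IntermediateField.finrank_top]
  rfl

theorem mem_L_poles (hF : IsCurve k F) {z : F} (hz : ∀ c : k, z ≠ algebraMap k F c) :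
    z ∈ L (poles k z) := by
  refine Or.inr fun P => ?_
  rw [polesC_apply hF (neC_zero hz)]
  have h1 := le_max_left (-P.ord z) 0
  linarith

theorem line_genus (hF : IsCurve k F) {z : F} (hz : ∀ c : k, z ≠ algebraMap k F c)
    (htop : IntermediateField.adjoin k {z} = ⊤) : genus k F = 0 := by
  obtain ⟨c₀, hc⟩ := hF.riemann
  have h1 := hc (c₀.toNat • poles k z) (by
    rw [deg_nsmul, line_deg hF hz htop, mul_one]
    exact Int.self_le_toNat _)
  have h2 := le_ell_nsmul hF (polesC_nonneg z) (mem_L_poles hF hz) hz c₀.toNat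
  rw [deg_nsmul, line_deg hF hz htop, mul_one] at h1
  omega

end Line

variable {k F K : Type} [Field k] [IsAlgClosed k] [CharZero k] [Field F] [Field K] [Algebra k F]
  [Algebra k K] [Algebra F K] [IsScalarTower k F K] [FiniteDimensional F K]

theorem pull_poles (hF : IsCurve k F) (hK : IsCurve k K) {z : F}
    (hz : ∀ c : k, z ≠ algebraMap k F c) :
    pull K (poles k z) = poles k (algebraMap F K z) := by
  have hz0 := neC_zero hz
  have hz1 : algebraMap F K z ≠ 0 := (map_ne_zero_iff _ (algebraMap F K).injective).2 hz0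
  ext P
  rw [pull_apply hK, polesC_apply hF hz0, polesC_apply hK hz1, P.ord_map]
  have h1 : (0 : ℤ) ≤ P.ram F := Int.natCast_nonneg _
  rcases le_total (-(P.below : Pt k F).ord z) 0 with h2 | h2
  · rw [max_eq_right h2, max_eq_right]
    · ring
    · nlinarith
  · rw [max_eq_left h2, max_eq_left]
    · ring
    · nlinarith

private theorem pcc_pow (hK : IsCurve k K) {x : K} {B : Dv k F} (hx : x ∈ L (pull K B))
    (j : ℕ) : x ^ j ∈ L (pull K (j • B)) := by
  induction j with
  | zero =>
    rw [pow_zero, pull_nsmul hK, zero_smul]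
    exact one_mem_L le_rfl
  | succ j ih =>
    rw [pow_succ, succ_nsmul, pull_add hK]
    exact mul_mem_L ih hx

private theorem pcc_sum (hF : IsCurve k F) (hK : IsCurve k K) {x : K} {B : Dv k F}
    (hx : x ∈ L (pull K B)) (hadj : IntermediateField.adjoin F {x} = ⊤) (A : Dv k F) :
    ∑ j : Fin (Module.finrank F K), ell (A + (Module.finrank F K - 1 - (j : ℕ)) • B) ≤
      ell (pull K (A + (Module.finrank F K - 1) • B)) := by
  have hdeg := (Field.primitive_element_iff_minpoly_natDegree_eq F x).1 hadj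
  have hli := linearIndependent_pow (K := F) x
  rw [hdeg] at hli
  obtain ⟨d, hd⟩ : ∃ d : ℕ, d = Module.finrank F K := ⟨_, rfl⟩
  rw [← hd] at hli ⊢
  have hmem : ∀ (j : Fin d) (f : F), f ∈ L (A + (d - 1 - (j : ℕ)) • B) →
      algebraMap F K f * x ^ (j : ℕ) ∈ L (pull K (A + (d - 1) • B)) := by
    intro j f hf
    have h1 := mul_mem_L ((map_mem_pull (K := K) hK).2 hf) (pcc_pow hK hx (j : ℕ))
    rw [← pull_add hK, add_assoc, ← add_smul] at h1
    have h2 : d - 1 - (j : ℕ) + (j : ℕ) = d - 1 := by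
      have := j.2
      omega
    rw [h2] at h1
    exact h1
  have hfin : ∀ D : Dv k F, FiniteDimensional k (L D) := hF.finDim
  have hfinK : FiniteDimensional k (L (pull K (A + (d - 1) • B))) := hK.finDim _
  let φ : (∀ j : Fin d, L (A + (d - 1 - (j : ℕ)) • B)) →ₗ[k] L (pull K (A + (d - 1) • B)) :=
    { toFun := fun p => ⟨∑ j, algebraMap F K (p j) * x ^ (j : ℕ),
        Submodule.sum_mem _ fun j _ => hmem j _ (p j).2⟩
      map_add' := by
        intro p q
        apply Subtype.ext
        simp only [Pi.add_apply, Submodule.coe_add, map_add, add_mul, Finset.sum_add_distrib]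
      map_smul' := by
        intro c p
        apply Subtype.ext
        simp only [Pi.smul_apply, Submodule.coe_smul, RingHom.id_apply, Algebra.smul_def, map_mul,
          ← IsScalarTower.algebraMap_apply k F K, Finset.mul_sum, mul_assoc] }
  have hφ : ∀ p, ((φ p : L (pull K (A + (d - 1) • B))) : K) =
      ∑ j, algebraMap F K (p j) * x ^ (j : ℕ) := fun _ => rfl
  have hinj : Function.Injective φ := by
    rw [injective_iff_map_eq_zero]
    intro p hp
    have h1 : ∑ j, ((p j : F)) • x ^ (j : ℕ) = 0 := by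
      have h2 := hφ p
      rw [hp] at h2
      simp only [Algebra.smul_def]
      exact h2.symm
    funext j
    exact Subtype.ext ((Fintype.linearIndependent_iff.1 hli) (fun j => (p j : F)) h1 j)
  have h3 := LinearMap.finrank_le_finrank_of_injective hinj
  rw [Module.finrank_pi_fintype] at h3
  exact h3

/-- The bound for the genus (Castelnuovo and Severi): if `x ∈ L(f^*B)` generates `K` over the
rational function field `F` then `2 g ≤ 2 - 2 d + d (d - 1) deg B`. -/
theorem genus_sharp (hF : IsCurve k F) (hK : IsCurve k K) (hg0 : genus k F = 0) {x : K}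
    {B : Dv k F} (hB : 0 ≤ deg B) (hx : x ∈ L (pull K B))
    (hadj : IntermediateField.adjoin F {x} = ⊤) :
    2 * (genus k K : ℤ) ≤ 2 - 2 * Module.finrank F K +
      Module.finrank F K * ((Module.finrank F K : ℤ) - 1) * deg B := by
  obtain ⟨c₁, h1⟩ := hK.riemann
  obtain ⟨Q⟩ := nonempty_pt hF
  have hs := pcc_sum hF hK hx hadj (c₁.toNat • Finsupp.single Q 1)
  have hd0 : 0 < Module.finrank F K := Module.finrank_pos
  have hdp : deg (pull K ((c₁.toNat • Finsupp.single Q 1 : Dv k F) +
      (Module.finrank F K - 1) • B)) = Module.finrank F K *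
        ((c₁.toNat : ℤ) + ((Module.finrank F K : ℤ) - 1) * deg B) := by
    rw [deg_pull_cov hF hK, deg_add, deg_nsmul, deg_nsmul, deg_single, mul_one, Nat.cast_sub hd0,
      Nat.cast_one]
  obtain ⟨d, hd⟩ : ∃ d : ℕ, d = Module.finrank F K := ⟨_, rfl⟩
  rw [← hd] at hs hd0 hdp ⊢
  have hd1 : (1 : ℤ) ≤ d := by exact_mod_cast hd0
  have hc : c₁ ≤ (c₁.toNat : ℤ) := Int.self_le_toNat c₁
  have hc0 : (0 : ℤ) ≤ (c₁.toNat : ℤ) := Int.natCast_nonneg _
  obtain ⟨m, hm⟩ : ∃ m : ℤ, m = (c₁.toNat : ℤ) := ⟨_, rfl⟩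
  have hdB : 0 ≤ ((d : ℤ) - 1) * deg B := mul_nonneg (by linarith) hB
  have h2 := h1 _ (by
    rw [hdp, ← hm]
    rw [← hm] at hc hc0
    nlinarith)
  rw [hdp, ← hm] at h2
  have h3 : ∀ j : Fin d, m + 1 + ((d : ℤ) - 1 - (j : ℕ)) * deg B ≤
      (ell ((c₁.toNat • Finsupp.single Q 1 : Dv k F) + (d - 1 - (j : ℕ)) • B) : ℤ) := by
    intro j
    have h4 := hF.le_ell ((c₁.toNat • Finsupp.single Q 1 : Dv k F) + (d - 1 - (j : ℕ)) • B)
    rw [deg_add, deg_nsmul, deg_nsmul, deg_single, mul_one, ← hm, hg0] at h4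
    have h5 : ((d - 1 - (j : ℕ) : ℕ) : ℤ) = (d : ℤ) - 1 - (j : ℕ) := by
      have := j.2
      omega
    rw [h5] at h4
    push_cast at h4
    linarith
  have hsum : ∑ j : Fin d, (m + 1 + ((d : ℤ) - 1 - (j : ℕ)) * deg B) * 2 =
      2 * (d * (m + 1)) + d * ((d : ℤ) - 1) * deg B := by
    rw [Fin.sum_univ_eq_sum_range (fun j : ℕ => (m + 1 + ((d : ℤ) - 1 - j) * deg B) * 2) d]
    have h5 : ∀ n : ℕ, ∑ j ∈ Finset.range n, (m + 1 + ((d : ℤ) - 1 - (j : ℕ)) * deg B) * 2 =
        2 * (n * (m + 1)) + n * (2 * (d : ℤ) - 1 - n) * deg B := by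
      intro n
      induction n with
      | zero => simp
      | succ n ih =>
        rw [Finset.sum_range_succ, ih]
        push_cast
        ring
    rw [h5 d]
    ring
  have h6 := Finset.sum_le_sum fun j (_ : j ∈ (Finset.univ : Finset (Fin d))) => h3 j
  have h8 : ∑ j : Fin d,
      (ell ((c₁.toNat • Finsupp.single Q 1 : Dv k F) + (d - 1 - (j : ℕ)) • B) : ℤ) ≤
      (ell (pull K ((c₁.toNat • Finsupp.single Q 1 : Dv k F) + (d - 1) • B)) : ℤ) := by
    exact_mod_cast hs
  rw [← Finset.sum_mul] at hsum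
  rw [h2] at h8
  have h9 := h6.trans h8
  nlinarith

/-- The cover is primitive if the multiples of the pencil have no other sections. -/
theorem prim_of_ell (hF : IsCurve k F) (hK : IsCurve k K) {z : F}
    (hz : ∀ c : k, z ≠ algebraMap k F c) (htop : IntermediateField.adjoin k {z} = ⊤) {c : ℕ}
    (hl : ell ((c + 1) • poles k (algebraMap F K z)) = c + 2) :
    Prim k F K ((c : ℤ) + 1) := by
  intro B hB x hx
  have hdeg := line_deg hF hz htop
  have hg0 := line_genus hF hz htop
  have hpos := polesC_nonneg (k := k) z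
  set m : ℕ := ((c : ℤ) + 1 - deg B).toNat with hm
  have hm' : (m : ℤ) = (c : ℤ) + 1 - deg B := Int.toNat_of_nonneg (by linarith)
  set B' : Dv k F := B + m • poles k z with hB'
  have hBB' : B ≤ B' := by
    rw [hB']
    exact le_add_of_nonneg_right (nsmul_nonneg hpos m)
  have hdB' : deg B' = (c : ℤ) + 1 := by
    rw [hB', deg_add, deg_nsmul, hdeg, hm']
    ring
  obtain ⟨u, hu0, hu⟩ := pca_principal hF hg0 (A := B' - (c + 1) • poles k z) (by
    rw [deg_sub, deg_nsmul, hdeg, hdB']
    push_cast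
    ring)
  have hui : u⁻¹ ∈ L (dv k u) := by
    refine Or.inr fun P => ?_
    rw [P.ord_inv, hF.dv_apply hu0]
  have h1 : x * algebraMap F K u⁻¹ ∈ L ((c + 1) • poles k (algebraMap F K z)) := by
    have h2 := mul_mem_L (L_mono (pull_mono hK hBB') hx) ((map_mem_pull (K := K) hK).2 hui)
    rw [← pull_add hK, hu] at h2
    have h3 : B' + -(B' - (c + 1) • poles k z) = (c + 1) • poles k z := by abel
    rw [h3, pull_nsmul hK, pull_poles hF hK hz] at h2
    exact h2
  -- `L((c+1)E)` comes from `F`
  set φ : F →ₗ[k] K := (IsScalarTower.toAlgHom k F K).toLinearMap with hφ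
  have hφa : ∀ f, φ f = algebraMap F K f := fun f => rfl
  have hle : (L ((c + 1) • poles k z)).map φ ≤ L ((c + 1) • poles k (algebraMap F K z)) := by
    rintro _ ⟨f, hf, rfl⟩
    rw [hφa, ← pull_poles hF hK hz, ← pull_nsmul hK]
    exact (map_mem_pull hK).2 hf
  have hfin := hK.finDim ((c + 1) • poles k (algebraMap F K z))
  have hfr : Module.finrank k ((L ((c + 1) • poles k z)).map φ) = ell ((c + 1) • poles k z) := by
    exact (Submodule.equivMapOfInjective φ (algebraMap F K).injective _).finrank_eq.symm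
  have hge := le_ell_nsmul hF hpos (mem_L_poles hF hz) hz (c + 1)
  have heq : (L ((c + 1) • poles k z)).map φ = L ((c + 1) • poles k (algebraMap F K z)) := by
    refine Submodule.eq_of_le_of_finrank_le hle ?_
    rw [hfr]
    have h2 : ell ((c + 1) • poles k (algebraMap F K z)) = c + 2 := hl
    unfold ell at h2
    rw [h2]
    exact hge
  rw [← heq] at h1
  obtain ⟨f, -, hf⟩ := h1
  refine ⟨f * u, ?_⟩
  rw [hφa] at hf
  rw [map_mul, hf, mul_assoc, ← map_mul, inv_mul_cancel₀ hu0, map_one, mul_one]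

end Pool.Agent.MPd118f9
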