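import Pool.Agent.Lib.MP_d118f9_ag_R.PCc
import Pool.Agent.Lib.MP_d118f9_ag_G.KD
import Pool.Agent.Lib.MP_d118f9_ag_G.TRel
import Pool.Agent.Lib.MP_d118f9_ag.K.KLin

/-!
# MP_d118f9_ag, the theorem PC: pencils with few sections of their multiples

Text: `/team-store/TEXT_d118f9_PC.md`.
-/

set_option autoImplicit false
set_option linter.unusedSectionVars false

noncomputable section

open Classical

namespace Pool.Agent.MPd118f9

section Cover

variable {k F K : Type} [Field k] [IsAlgClosed k] [CharZero k] [Field F] [Field K] [Algebra k F]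
  [Algebra k K] [Algebra F K] [IsScalarTower k F K] [FiniteDimensional F K]

/-- The genus of a primitive cover of the line. -/
theorem genus_ge_of_prim (hF : IsCurve k F) (hK : IsCurve k K) (hg0 : genus k F = 0) {c : ℕ}
    (hP : Prim k F K ((c : ℤ) + 1)) :
    ((c : ℤ) + 1) * ((Module.finrank F K : ℤ) - 1) ≤ genus k K := by
  obtain ⟨W, hW⟩ := hF.exists_can
  obtain ⟨WK, hrel⟩ := exists_rel (K := K) hF hK hW
  obtain ⟨Q⟩ := nonempty_pt hF
  have h1 := (isBdl_VB hF hK hrel hP).rr (B := -Finsupp.single Q ((c : ℤ) + 1)) (by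
    rw [deg_neg, deg_single])
  rw [deg_neg, deg_single, hg0] at h1
  have h2 : (0 : ℤ) ≤ (Module.finrank k (VB WK (-Finsupp.single Q ((c : ℤ) + 1) : Dv k F)) : ℤ) :=
    Int.natCast_nonneg _
  rw [h1] at h2
  push_cast at h2
  linarith

/-- Primitive covers of the line. -/
theorem np_of_prim (hF : IsCurve k F) (hK : IsCurve k K) (hg0 : genus k F = 0) {c : ℕ}
    (hc : 1 ≤ c) (hP : Prim k F K ((c : ℤ) + 1)) (hd : c + 2 ≤ Module.finrank F K) {W : Dv k K}
    (hW : IsCan W) {p : ℕ} (hp : p < c) : Np W p := by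
  obtain ⟨WF, hWF⟩ := hF.exists_can
  obtain ⟨WK, hrel⟩ := exists_rel (K := K) hF hK hWF
  refine Np.of_can hK hrel.canK hW ?_
  intro i hi q hq
  have hg := genus_ge_of_prim hF hK hg0 hP
  have hd' : (c : ℤ) + 2 ≤ (Module.finrank F K : ℤ) := by exact_mod_cast hd
  have hc' : (1 : ℤ) ≤ (c : ℤ) := by exact_mod_cast hc
  have hg' : ((c : ℤ) + 2) ≤ genus k K := by nlinarith
  have hg'' : c + 2 ≤ genus k K := by exact_mod_cast hg'
  refine kosExact_of_HC hK hrel.canK (by omega) ?_ q hq
  refine HC_zero_sharp hF hK hg0 hrel hP (by linarith) ?_ (by omega)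
  push_cast
  have h1 : (i : ℤ) < c := by exact_mod_cast (by omega : i < c)
  linarith

/-- Covers of the line without intermediate curves are primitive if the genus is large. -/
theorem prim_of_simple (hF : IsCurve k F) (hK : IsCurve k K) (hg0 : genus k F = 0)
    (hs : ∀ F' : IntermediateField F K, F' = ⊥ ∨ F' = ⊤)
    (hg : ((Module.finrank F K : ℤ) - 2) * ((Module.finrank F K : ℤ) ^ 2 - 1) <
      2 * (genus k K : ℤ)) :
    Prim k F K ((Module.finrank F K : ℤ) - 1) := by
  intro B hB x hx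
  by_contra hne
  push Not at hne
  have hx0 : x ≠ 0 := fun h => hne 0 (by rw [map_zero, h])
  have hadj : IntermediateField.adjoin F {x} = ⊤ := by
    refine (hs _).resolve_left ?_
    rw [IntermediateField.adjoin_simple_eq_bot_iff, IntermediateField.mem_bot]
    rintro ⟨f, hf⟩
    exact hne f hf
  have hd0 : (0 : ℤ) < Module.finrank F K := by exact_mod_cast Module.finrank_pos
  have hdeg : 0 ≤ deg B := by
    by_contra hlt
    push Not at hlt
    have h1 : deg (pull K B) < 0 := by
      rw [deg_pull_cov hF hK]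
      nlinarith
    have h2 := hK.ell_of_deg_neg h1
    have h3 := hK.finDim (pull K B)
    have h4 : L (pull K B) = ⊥ := Submodule.finrank_eq_zero.1 h2
    rw [h4] at hx
    exact hx0 hx
  have h1 := genus_sharp hF hK hg0 hdeg hx hadj
  obtain ⟨d, hd⟩ : ∃ d : ℤ, d = Module.finrank F K := ⟨_, rfl⟩
  rw [← hd] at h1 hB hg hd0
  have h2 : d * (d - 1) * deg B ≤ d * (d - 1) * (d - 1) :=
    mul_le_mul_of_nonneg_left hB (mul_nonneg (by linarith) (by linarith))
  have h3 : 2 - 2 * d + d * (d - 1) * (d - 1) = (d - 2) * (d ^ 2 - 1) := by ring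
  linarith

end Cover

variable {k K : Type} [Field k] [IsAlgClosed k] [CharZero k] [Field K] [Algebra k K]

/-- The Clifford index of a curve with a pencil of degree `d < g`. -/
theorem cliff_pencil (hK : IsCurve k K) {z : K} (hz : ∀ c : k, z ≠ algebraMap k K c) {W : Dv k K}
    (hW : IsCan W) (hg : deg (poles k z) + 1 ≤ genus k K) :
    (cliff W : ℤ) + 2 ≤ deg (poles k z) := by
  have h1 := le_ell_nsmul hK (polesC_nonneg z) (mem_L_poles hK hz) hz 1
  rw [one_nsmul] at h1
  have h2 := hW.riemann_roch hK (poles k z)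
  have h3 := hK.deg_poles_pos hz
  refine cliff_le hK (by omega) (polesC_nonneg z) h1 ?_
  omega

/-- The function `z` as an element of `k(z)`. -/
theorem adjoin_facts (hK : IsCurve k K) {z : K} (hz : ∀ c : k, z ≠ algebraMap k K c) :
    ∃ z₀ : IntermediateField.adjoin k {z},
      algebraMap (IntermediateField.adjoin k {z}) K z₀ = z ∧
      (∀ c : k, z₀ ≠ algebraMap k (IntermediateField.adjoin k {z}) c) ∧
      IntermediateField.adjoin k {z₀} = ⊤ ∧
      deg (poles k z) = Module.finrank (IntermediateField.adjoin k {z}) K := by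
  refine ⟨IntermediateField.AdjoinSimple.gen k z, rfl, ?_, ?_, hK.deg_poles hz⟩
  · intro c hc
    apply hz c
    have h1 := congrArg (algebraMap (IntermediateField.adjoin k {z}) K) hc
    rw [← IsScalarTower.algebraMap_apply] at h1
    exact h1
  · apply IntermediateField.map_injective (IntermediateField.val _)
    rw [IntermediateField.adjoin_map, Set.image_singleton, ← AlgHom.fieldRange_eq_map,
      IntermediateField.fieldRange_val]
    rfl

/-- **Theorem PC.** Let `E` be the divisor of poles of `z`, `c ≥ 1`, `deg E ≥ c + 2` and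
`l((c+1) E) = c + 2`. Then the canonical divisors satisfy `(N_p)` for all `p < c`, and if
`deg E = c + 2` the Clifford index is at most `c`. -/
theorem pencil_np (hK : IsCurve k K) {z : K} (hz : ∀ c : k, z ≠ algebraMap k K c) {c : ℕ}
    (hc : 1 ≤ c) (hd : (c : ℤ) + 2 ≤ deg (poles k z)) (hl : ell ((c + 1) • poles k z) = c + 2)
    {W : Dv k K} (hW : IsCan W) :
    (∀ p < c, Np W p) ∧ (deg (poles k z) = (c : ℤ) + 2 → cliff W ≤ c) := by
  obtain ⟨z₀, h1, h2, h3, h4⟩ := adjoin_facts hK hz
  have hfd := hK.finDim_adjoin hz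
  have hF : IsCurve k (IntermediateField.adjoin k {z}) := line_curve h2 h3
  have hg0 := line_genus hF h2 h3
  have hP : Prim k (IntermediateField.adjoin k {z}) K ((c : ℤ) + 1) :=
    prim_of_ell hF hK h2 h3 (by rw [h1]; exact hl)
  rw [h4] at hd
  have hd' : c + 2 ≤ Module.finrank (IntermediateField.adjoin k {z}) K := by exact_mod_cast hd
  refine ⟨fun p hp => np_of_prim hF hK hg0 hc hP hd' hW hp, fun hdc => ?_⟩
  have hg := genus_ge_of_prim hF hK hg0 hP
  have hc' : (1 : ℤ) ≤ (c : ℤ) := by exact_mod_cast hc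
  rw [← h4, hdc] at hg
  have h5 := cliff_pencil hK hz hW (by rw [hdc]; nlinarith)
  rw [hdc] at h5
  omega

/-- Covers of the line without intermediate curves. -/
theorem simple_np (hK : IsCurve k K) {z : K} (hz : ∀ c : k, z ≠ algebraMap k K c) {d : ℕ}
    (hd : 3 ≤ d) (hdz : deg (poles k z) = d)
    (hs : ∀ F' : IntermediateField (IntermediateField.adjoin k {z}) K, F' = ⊥ ∨ F' = ⊤)
    (hg : ((d : ℤ) - 2) * ((d : ℤ) ^ 2 - 1) < 2 * (genus k K : ℤ)) {W : Dv k K} (hW : IsCan W) :
    (∀ p, p + 2 < d → Np W p) ∧ cliff W + 2 ≤ d := by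
  obtain ⟨z₀, h1, h2, h3, h4⟩ := adjoin_facts hK hz
  have hfd := hK.finDim_adjoin hz
  have hF : IsCurve k (IntermediateField.adjoin k {z}) := line_curve h2 h3
  have hg0 := line_genus hF h2 h3
  obtain ⟨c, rfl⟩ : ∃ c, d = c + 2 := ⟨d - 2, by omega⟩
  have hfr : Module.finrank (IntermediateField.adjoin k {z}) K = c + 2 := by
    rw [h4] at hdz
    exact_mod_cast hdz
  have hP := prim_of_simple hF hK hg0 hs (by rw [hfr]; exact hg)
  have hP' : Prim k (IntermediateField.adjoin k {z}) K ((c : ℤ) + 1) := by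
    rw [hfr] at hP
    have h5 : (((c + 2 : ℕ) : ℤ) - 1) = (c : ℤ) + 1 := by
      push_cast
      ring
    rwa [h5] at hP
  refine ⟨fun p hp => np_of_prim hF hK hg0 (by omega) hP' hfr.ge hW (by omega), ?_⟩
  have hg1 := genus_ge_of_prim hF hK hg0 hP'
  rw [hfr] at hg1
  have hc' : (1 : ℤ) ≤ (c : ℤ) := by exact_mod_cast (by omega : 1 ≤ c)
  push_cast at hg1
  have h5 := cliff_pencil hK hz hW (by rw [hdz]; push_cast; nlinarith)
  rw [hdz] at h5
  omega

end Pool.Agent.MPd118f9
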