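import Mathlib

/-!
# MP_d118f9_ag, relative part: alternating forms, wedge with a linear form, partial evaluation

Text: `/team-store/TEXT_d118f9_REL.md` (and `TEXT_d118f9_PC.md`).
-/

set_option autoImplicit false

noncomputable section

open Fin Function

namespace Pool.Agent.MPd118f9.Rel

variable {F : Type} [Field F]
variable {W W' A B C : Type} [AddCommGroup W] [Module F W] [AddCommGroup W'] [Module F W']
  [AddCommGroup A] [Module F A] [AddCommGroup B] [Module F B] [AddCommGroup C] [Module F C]

/-- The wedge product of the linear form `β` and the alternating form `f`: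
`(c_0, …, c_n) ↦ ∑ l, (-1)^l β (c_l) (f (c without c_l))`. -/
def wdg {n : ℕ} (β : W →ₗ[F] A →ₗ[F] C) (f : W [⋀^Fin n]→ₗ[F] A) : W [⋀^Fin (n + 1)]→ₗ[F] C :=
  AlternatingMap.alternatizeUncurryFin
    { toFun := fun x => (β x).compAlternatingMap f
      map_add' := fun x y => by
        ext c
        simp
      map_smul' := fun r x => by
        ext c
        simp }

theorem wdg_apply {n : ℕ} (β : W →ₗ[F] A →ₗ[F] C) (f : W [⋀^Fin n]→ₗ[F] A)
    (c : Fin (n + 1) → W) :
    wdg β f c = ∑ l : Fin (n + 1), (-1 : ℤ) ^ (l : ℕ) • β (c l) (f (l.removeNth c)) := by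
  unfold wdg
  rw [AlternatingMap.alternatizeUncurryFin_apply]
  rfl

theorem wdg_add {n : ℕ} (β : W →ₗ[F] A →ₗ[F] C) (f g : W [⋀^Fin n]→ₗ[F] A) :
    wdg β (f + g) = wdg β f + wdg β g := by
  ext c
  simp [wdg_apply, Finset.sum_add_distrib]

theorem wdg_sub {n : ℕ} (β : W →ₗ[F] A →ₗ[F] C) (f g : W [⋀^Fin n]→ₗ[F] A) :
    wdg β (f - g) = wdg β f - wdg β g := by
  ext c
  simp [wdg_apply, smul_sub]

theorem wdg_smul {n : ℕ} (β : W →ₗ[F] A →ₗ[F] C) (r : F) (f : W [⋀^Fin n]→ₗ[F] A) :
    wdg β (r • f) = r • wdg β f := by
  ext c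
  simp only [wdg_apply, AlternatingMap.smul_apply, map_smul, Finset.smul_sum]
  exact Finset.sum_congr rfl fun l _ => smul_comm _ _ _

theorem wdg_zero {n : ℕ} (β : W →ₗ[F] A →ₗ[F] C) : wdg β (0 : W [⋀^Fin n]→ₗ[F] A) = 0 := by
  ext c
  simp [wdg_apply]

/-- `β' ∧ (β ∧ f) = 0` if `β' x (β y a)` is symmetric in `x, y`. -/
theorem wdg_wdg {n : ℕ} (β : W →ₗ[F] A →ₗ[F] B) (β' : W →ₗ[F] B →ₗ[F] C)
    (h : ∀ x y a, β' x (β y a) = β' y (β x a)) (f : W [⋀^Fin n]→ₗ[F] A) :
    wdg β' (wdg β f) = 0 := by
  have h1 := AlternatingMap.alternatizeUncurryFin_alternatizeUncurryFinLM_comp_of_symmetric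
    (f := ({ toFun := fun x =>
              { toFun := fun y => ((β' x).comp (β y)).compAlternatingMap f
                map_add' := fun y z => by
                  ext c
                  simp
                map_smul' := fun r y => by
                  ext c
                  simp }
             map_add' := fun x z => by
              ext y c
              simp
             map_smul' := fun r x => by
              ext y c
              simp } : W →ₗ[F] W →ₗ[F] W [⋀^Fin n]→ₗ[F] C))
    (fun x y => by
      ext c
      exact h x y (f c))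
  rw [← h1]
  ext c
  rw [wdg_apply, AlternatingMap.alternatizeUncurryFin_apply]
  refine Finset.sum_congr rfl fun l _ => ?_
  congr 1
  rw [wdg_apply]
  simp only [LinearMap.comp_apply, AlternatingMap.alternatizeUncurryFinLM_apply]
  rw [AlternatingMap.alternatizeUncurryFin_apply, map_sum]
  refine Finset.sum_congr rfl fun q _ => ?_
  rw [map_zsmul]
  rfl

/-- `(β ∧ f) ∘ g = (β ∘ g) ∧ (f ∘ g)`. -/
theorem wdg_comp {n : ℕ} (β : W →ₗ[F] A →ₗ[F] C) (f : W [⋀^Fin n]→ₗ[F] A) (g : W' →ₗ[F] W) :
    (wdg β f).compLinearMap g = wdg (β.comp g) (f.compLinearMap g) := by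
  ext c
  rw [AlternatingMap.compLinearMap_apply, wdg_apply, wdg_apply]
  rfl

/-! ### Partial evaluation -/

theorem append_update {α : Type} {j a : ℕ} [inst : DecidableEq (Fin a)] (m : Fin j → α)
    (x : Fin a → α) (i : Fin a) (y : α) :
    Fin.append m (update x i y) = update (Fin.append m x) (natAdd j i) y := by
  funext q
  induction q using Fin.addCases with
  | left q =>
    rw [Fin.append_left, update_of_ne, Fin.append_left]
    intro h
    have h1 := congrArg Fin.val h
    simp at h1
    omega
  | right q =>
    rw [Fin.append_right]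
    by_cases h : q = i
    · subst h
      rw [update_self, update_self]
    · rw [update_of_ne h, update_of_ne, Fin.append_right]
      intro h2
      apply h
      have h1 := congrArg Fin.val h2
      simp at h1
      exact Fin.ext h1

theorem append_update_left {α : Type} {j a : ℕ} (m : Fin j → α) (x : Fin a → α) (i : Fin j)
    (y : α) : Fin.append (update m i y) x = update (Fin.append m x) (castAdd a i) y := by
  funext q
  induction q using Fin.addCases with
  | left q =>
    rw [Fin.append_left]
    by_cases h : q = i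
    · subst h
      rw [update_self, update_self]
    · rw [update_of_ne h, update_of_ne, Fin.append_left]
      intro h2
      apply h
      have h1 := congrArg Fin.val h2
      simp at h1
      exact Fin.ext h1
  | right q =>
    rw [Fin.append_right, update_of_ne, Fin.append_right]
    intro h
    have h1 := congrArg Fin.val h
    simp at h1
    omega

/-- The form `f (m_1, …, m_j, ·)`. -/
def pe {j a : ℕ} (f : W [⋀^Fin (j + a)]→ₗ[F] A) (m : Fin j → W) : W [⋀^Fin a]→ₗ[F] A where
  toFun x := f (Fin.append m x)
  map_update_add' x i y z := by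
    rw [append_update, append_update, append_update, f.map_update_add]
  map_update_smul' x i r y := by
    rw [append_update, append_update, f.map_update_smul]
  map_eq_zero_of_eq' x p q h hpq := by
    refine f.map_eq_zero_of_eq _ (i := natAdd j p) (j := natAdd j q) ?_ ?_
    · rw [Fin.append_right, Fin.append_right, h]
    · intro h2
      apply hpq
      have h1 := congrArg Fin.val h2
      simp at h1
      exact Fin.ext h1

@[simp] theorem pe_apply {j a : ℕ} (f : W [⋀^Fin (j + a)]→ₗ[F] A) (m : Fin j → W)
    (x : Fin a → W) : pe f m x = f (Fin.append m x) := rfl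

theorem pe_add {j a : ℕ} (f g : W [⋀^Fin (j + a)]→ₗ[F] A) (m : Fin j → W) :
    pe (f + g) m = pe f m + pe g m := rfl

theorem pe_sub {j a : ℕ} (f g : W [⋀^Fin (j + a)]→ₗ[F] A) (m : Fin j → W) :
    pe (f - g) m = pe f m - pe g m := rfl

theorem pe_smul {j a : ℕ} (r : F) (f : W [⋀^Fin (j + a)]→ₗ[F] A) (m : Fin j → W) :
    pe (r • f) m = r • pe f m := rfl

theorem pe_update_add {j a : ℕ} (f : W [⋀^Fin (j + a)]→ₗ[F] A) (m : Fin j → W) (i : Fin j)
    (y z : W) : pe f (update m i (y + z)) = pe f (update m i y) + pe f (update m i z) := by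
  ext x
  simp only [pe_apply, AlternatingMap.add_apply, append_update_left]
  exact f.map_update_add _ _ _ _

theorem pe_update_smul {j a : ℕ} (f : W [⋀^Fin (j + a)]→ₗ[F] A) (m : Fin j → W) (i : Fin j)
    (r : F) (y : W) : pe f (update m i (r • y)) = r • pe f (update m i y) := by
  ext x
  simp only [pe_apply, AlternatingMap.smul_apply, append_update_left]
  exact f.map_update_smul _ _ _ _

theorem removeNth_append {α : Type} {j a : ℕ} (m : Fin j → α) (x : Fin (a + 1) → α)
    (l : Fin (a + 1)) :
    (natAdd j l : Fin (j + a + 1)).removeNth (Fin.append m x : Fin (j + (a + 1)) → α) =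
      Fin.append m (l.removeNth x) := by
  funext q
  induction q using Fin.addCases with
  | left q =>
    rw [Fin.append_left, Fin.removeNth_apply]
    have h1 : (natAdd j l : Fin (j + a + 1)).succAbove (castAdd a q) = castAdd (a + 1) q := by
      rw [Fin.succAbove_of_castSucc_lt]
      · rfl
      · rw [Fin.lt_def]
        simp
        omega
    rw [h1]
    exact Fin.append_left m x q
  | right q =>
    rw [Fin.append_right, Fin.removeNth_apply, Fin.removeNth_apply]
    have h1 : (natAdd j l : Fin (j + a + 1)).succAbove (natAdd j q) = natAdd j (l.succAbove q) := by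
      by_cases h : q.castSucc < l
      · rw [Fin.succAbove_of_castSucc_lt _ _ h, Fin.succAbove_of_castSucc_lt]
        · rfl
        · rw [Fin.lt_def] at h ⊢
          simp at h ⊢
          exact h
      · rw [not_lt] at h
        rw [Fin.succAbove_of_le_castSucc _ _ h, Fin.succAbove_of_le_castSucc]
        · rfl
        · rw [Fin.le_def] at h ⊢
          simp at h ⊢
          exact h
    rw [h1]
    exact Fin.append_right m x _

/-- Partial evaluation at elements of the kernel of `β` commutes with the wedge product. -/
theorem pe_wdg {j a : ℕ} (β : W →ₗ[F] A →ₗ[F] C) (f : W [⋀^Fin (j + a)]→ₗ[F] A)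
    (m : Fin j → W) (hm : ∀ l, β (m l) = 0) :
    pe (a := a + 1) (wdg β f) m = (-1 : ℤ) ^ j • wdg β (pe f m) := by
  ext x
  have key : pe (a := a + 1) (wdg β f) m x = ∑ l : Fin (j + (a + 1)), (-1 : ℤ) ^ (l : ℕ) •
      β ((Fin.append m x : Fin (j + (a + 1)) → W) l)
        (f (Fin.removeNth (n := j + a) l (Fin.append m x : Fin (j + (a + 1)) → W))) :=
    wdg_apply β f _
  rw [AlternatingMap.smul_apply, wdg_apply, Finset.smul_sum, key, Fin.sum_univ_add]
  rw [Finset.sum_eq_zero, zero_add]
  · refine Finset.sum_congr rfl fun l _ => ?_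
    rw [Fin.append_right, smul_smul, ← pow_add, pe_apply]
    have h1 := removeNth_append m x l
    rw [Fin.val_natAdd]
    congr 2
    exact congrArg f h1
  · intro l _
    rw [Fin.append_left, hm l]
    simp

end Pool.Agent.MPd118f9.Rel
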