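import Pool.Agent.Lib.MP_d118f9_ag_R.SkA

/-!
# MP_d118f9_ag, relative part: traces and the projection `ρ`

Text: `/team-store/TEXT_d118f9_REL.md` (and `TEXT_d118f9_PC.md`).
-/

set_option autoImplicit false

noncomputable section

open Fin Function

namespace Pool.Agent.MPd118f9.Rel

variable {F : Type} [Field F]
variable {W W' U : Type} [AddCommGroup W] [Module F W] [AddCommGroup W'] [Module F W']
  [AddCommGroup U] [Module F U]

theorem alt_sum_apply {A κ : Type} [AddCommGroup A] [Module F A] {n : ℕ} (s : Finset κ)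
    (f : κ → W [⋀^Fin n]→ₗ[F] A) (c : Fin n → W) : (∑ b ∈ s, f b) c = ∑ b ∈ s, f b c := by
  classical
  induction s using Finset.induction_on with
  | empty => rfl
  | insert a s ha ih =>
    rw [Finset.sum_insert ha, Finset.sum_insert ha, AlternatingMap.add_apply, ih]

/-- `x, a ↦ a • p x`. -/
def sc (p : W →ₗ[F] U) : W →ₗ[F] F →ₗ[F] U where
  toFun x := LinearMap.toSpanSingleton F U (p x)
  map_add' x y := by
    ext
    simp
  map_smul' r x := by
    ext
    simp

@[simp] theorem sc_apply (p : W →ₗ[F] U) (x : W) (a : F) : sc p x a = a • p x := rfl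

/-- The form `(δ τ) (c_0, …, c_n) = ∑ l, (-1)^l τ (c without c_l) p (c_l)`. -/
def dl {n : ℕ} (p : W →ₗ[F] U) (τ : W [⋀^Fin n]→ₗ[F] F) : W [⋀^Fin (n + 1)]→ₗ[F] U :=
  wdg (sc p) τ

theorem dl_apply {n : ℕ} (p : W →ₗ[F] U) (τ : W [⋀^Fin n]→ₗ[F] F) (c : Fin (n + 1) → W) :
    dl p τ c = ∑ l : Fin (n + 1), (-1 : ℤ) ^ (l : ℕ) • τ (l.removeNth c) • p (c l) :=
  wdg_apply _ _ _

theorem dl_add {n : ℕ} (p : W →ₗ[F] U) (τ τ' : W [⋀^Fin n]→ₗ[F] F) :
    dl p (τ + τ') = dl p τ + dl p τ' := wdg_add _ _ _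

theorem dl_smul {n : ℕ} (p : W →ₗ[F] U) (r : F) (τ : W [⋀^Fin n]→ₗ[F] F) :
    dl p (r • τ) = r • dl p τ := wdg_smul _ _ _

theorem dl_comp {n : ℕ} (p : W →ₗ[F] U) (τ : W [⋀^Fin n]→ₗ[F] F) (g : W' →ₗ[F] W) :
    (dl p τ).compLinearMap g = dl (p.comp g) (τ.compLinearMap g) := by
  unfold dl
  rw [wdg_comp]
  rfl

theorem pe_dl {j a : ℕ} (p : W →ₗ[F] U) (τ : W [⋀^Fin (j + a)]→ₗ[F] F) (m : Fin j → W)
    (hm : ∀ l, p (m l) = 0) :
    pe (a := a + 1) (dl p τ) m = (-1 : ℤ) ^ j • dl p (pe τ m) := by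
  refine pe_wdg (sc p) τ m fun l => ?_
  ext
  simp [hm l]

/-- The trace with respect to the basis `u` of `U` and vectors `h`. -/
def tr {r n : ℕ} (u : Module.Basis (Fin r) F U) (h : Fin r → W) (f : W [⋀^Fin (n + 1)]→ₗ[F] U) :
    W [⋀^Fin n]→ₗ[F] F :=
  ∑ b, (u.coord b).compAlternatingMap (f.curryLeft (h b))

theorem tr_apply {r n : ℕ} (u : Module.Basis (Fin r) F U) (h : Fin r → W)
    (f : W [⋀^Fin (n + 1)]→ₗ[F] U) (c : Fin n → W) :
    tr u h f c = ∑ b, u.repr (f (Fin.cons (h b) c)) b := by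
  unfold tr
  rw [alt_sum_apply]
  rfl

theorem tr_add {r n : ℕ} (u : Module.Basis (Fin r) F U) (h : Fin r → W)
    (f g : W [⋀^Fin (n + 1)]→ₗ[F] U) : tr u h (f + g) = tr u h f + tr u h g := by
  ext c
  simp [tr_apply, Finset.sum_add_distrib]

theorem tr_sub {r n : ℕ} (u : Module.Basis (Fin r) F U) (h : Fin r → W)
    (f g : W [⋀^Fin (n + 1)]→ₗ[F] U) : tr u h (f - g) = tr u h f - tr u h g := by
  ext c
  simp [tr_apply, Finset.sum_sub_distrib]

theorem tr_smul {r n : ℕ} (u : Module.Basis (Fin r) F U) (h : Fin r → W) (a : F)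
    (f : W [⋀^Fin (n + 1)]→ₗ[F] U) : tr u h (a • f) = a • tr u h f := by
  ext c
  simp [tr_apply, Finset.mul_sum]

theorem tr_comp {r n : ℕ} (u : Module.Basis (Fin r) F U) (p : W →ₗ[F] U) (h : Fin r → W)
    (hh : ∀ b, p (h b) = u b) (f : U [⋀^Fin (n + 1)]→ₗ[F] U) :
    tr u h (f.compLinearMap p) = (tr u u f).compLinearMap p := by
  ext c
  rw [AlternatingMap.compLinearMap_apply, tr_apply, tr_apply]
  refine Finset.sum_congr rfl fun b _ => ?_
  rw [AlternatingMap.compLinearMap_apply]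
  congr 3
  funext q
  refine Fin.cases ?_ (fun q => ?_) q
  · simp [hh b]
  · simp

/-- The trace does not depend on the basis. -/
theorem tr_indep {r r' n : ℕ} (u : Module.Basis (Fin r) F U) (u' : Module.Basis (Fin r') F U)
    (f : U [⋀^Fin (n + 1)]→ₗ[F] U) : tr u u f = tr u' u' f := by
  have key : ∀ (t : ℕ) (v : Module.Basis (Fin t) F U) (c : Fin n → U),
      tr v v f c = LinearMap.trace F U
        ({ toFun := fun x => f (Fin.cons x c)
           map_add' := fun x y => f.map_vecCons_add c x y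
           map_smul' := fun a x => f.map_vecCons_smul c a x } : U →ₗ[F] U) := by
    intro t v c
    rw [tr_apply, LinearMap.trace_eq_matrix_trace F v, Matrix.trace]
    refine Finset.sum_congr rfl fun b _ => ?_
    rw [Matrix.diag_apply, LinearMap.toMatrix_apply]
    rfl
  ext c
  rw [key, key]

theorem cons_append {α : Type} {j a : ℕ} (y : α) (m : Fin j → α) (x : Fin a → α) :
    (Fin.append m (Fin.cons y x : Fin (a + 1) → α) : Fin (j + (a + 1)) → α) =
      Fin.insertNth (n := j + a) (α := fun _ => α) (natAdd j (0 : Fin (a + 1))) y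
        (Fin.append m x) := by
  refine (Fin.eq_insertNth_iff (n := j + a) (α := fun _ => α)).2 ?_
  constructor
  · exact Fin.append_right m _ 0
  · rw [removeNth_append m (Fin.cons y x : Fin (a + 1) → α) 0]
    rfl

theorem pe_tr {r j a : ℕ} (u : Module.Basis (Fin r) F U) (h : Fin r → W)
    (f : W [⋀^Fin (j + a + 1)]→ₗ[F] U) (m : Fin j → W) :
    pe (tr u h f) m = (-1 : ℤ) ^ j • tr u h (pe (a := a + 1) f m) := by
  ext x
  rw [pe_apply, tr_apply, AlternatingMap.smul_apply, tr_apply, Finset.smul_sum]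
  refine Finset.sum_congr rfl fun b _ => ?_
  have h1 : f (Fin.cons (h b) (Fin.append m x)) =
      (-1 : ℤ) ^ j • pe (a := a + 1) f m (Fin.cons (h b) x) := by
    have h2 := f.neg_one_pow_smul_map_insertNth (natAdd j (0 : Fin (a + 1)) : Fin (j + a + 1))
      (h b) (Fin.append m x)
    rw [← cons_append] at h2
    exact h2.symm
  rw [h1]
  simp

theorem removeNth_succ_cons {α : Type} {n : ℕ} (l : Fin (n + 1)) (y : α) (c : Fin (n + 1) → α) :
    (l.succ).removeNth (Fin.cons y c : Fin (n + 2) → α) = Fin.cons y (l.removeNth c) := by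
  funext q
  refine Fin.cases ?_ (fun q => ?_) q
  · simp [Fin.removeNth_apply]
  · simp [Fin.removeNth_apply]

/-- `Tr (δ τ) = (r - n) τ`. -/
theorem tr_dl {r n : ℕ} (u : Module.Basis (Fin r) F U) (τ : U [⋀^Fin n]→ₗ[F] F) :
    tr u u (dl LinearMap.id τ) = ((r : F) - n) • τ := by
  ext c
  rw [tr_apply, AlternatingMap.smul_apply]
  have h1 : ∀ b, u.repr (dl LinearMap.id τ (Fin.cons (u b) c)) b =
      τ c + ∑ l : Fin n, (-1 : ℤ) ^ ((l : ℕ) + 1) •
        (u.repr (c l) b * τ (l.succ.removeNth (Fin.cons (u b) c : Fin (n + 1) → U))) := by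
    intro b
    rw [dl_apply, Fin.sum_univ_succ]
    simp only [map_add, map_sum, map_zsmul, Finsupp.add_apply, Finsupp.coe_finsetSum,
      Finset.sum_apply, Finsupp.smul_apply, LinearMap.id_apply, map_smul, Fin.cons_zero,
      Fin.cons_succ, Fin.val_succ, Fin.val_zero, pow_zero, one_smul]
    congr 1
    · rw [Module.Basis.repr_self, Finsupp.single_eq_same, smul_eq_mul, mul_one]
      congr 1
    · refine Finset.sum_congr rfl fun l _ => ?_
      rw [smul_eq_mul, mul_comm]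
  rw [Finset.sum_congr rfl fun b _ => h1 b, Finset.sum_add_distrib, Finset.sum_comm]
  have h2 : ∀ l : Fin n, ∑ b, (-1 : ℤ) ^ ((l : ℕ) + 1) •
      (u.repr (c l) b * τ (l.succ.removeNth (Fin.cons (u b) c : Fin (n + 1) → U))) = -τ c := by
    intro l
    cases n with
    | zero => exact l.elim0
    | succ n =>
      rw [← Finset.smul_sum]
      have h3 : ∑ b, u.repr (c l) b * τ (l.succ.removeNth (Fin.cons (u b) c : Fin (n + 2) → U)) =
          τ (Fin.cons (c l) (l.removeNth c)) := by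
        have h4 : τ (Fin.cons (c l) (l.removeNth c)) = τ.curryLeft (c l) (l.removeNth c) := rfl
        rw [h4]
        conv_rhs => rw [← u.sum_repr (c l)]
        rw [map_sum, alt_sum_apply]
        refine Finset.sum_congr rfl fun b _ => ?_
        rw [map_smul, AlternatingMap.smul_apply, removeNth_succ_cons]
        rfl
      have h5 := τ.neg_one_pow_smul_map_insertNth l (c l) (l.removeNth c)
      rw [Fin.insertNth_self_removeNth] at h5
      rw [h3, pow_succ, mul_comm, mul_smul]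
      have h6 : (-1 : ℤ) ^ (l : ℕ) • τ (Fin.cons (c l) (l.removeNth c)) = τ c := by
        have h7 : τ (Fin.cons (c l) (l.removeNth c)) = (-1 : ℤ) ^ (l : ℕ) • τ c := h5.symm
        rw [h7, smul_smul, ← pow_add, Even.neg_one_pow ⟨_, rfl⟩, one_smul]
      rw [h6, neg_smul, one_smul]
  rw [Finset.sum_congr rfl fun l _ => h2 l]
  simp
  ring

/-- `ρ f = f - δ (Tr f) / (r - i)`. -/
def rho {r i : ℕ} (u : Module.Basis (Fin r) F U) (f : U [⋀^Fin (i + 1)]→ₗ[F] U) :
    U [⋀^Fin (i + 1)]→ₗ[F] U :=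
  f - ((r : F) - i)⁻¹ • dl LinearMap.id (tr u u f)

theorem rho_add {r i : ℕ} (u : Module.Basis (Fin r) F U) (f g : U [⋀^Fin (i + 1)]→ₗ[F] U) :
    rho u (f + g) = rho u f + rho u g := by
  unfold rho
  rw [tr_add, dl_add, smul_add]
  abel

theorem rho_smul {r i : ℕ} (u : Module.Basis (Fin r) F U) (a : F)
    (f : U [⋀^Fin (i + 1)]→ₗ[F] U) : rho u (a • f) = a • rho u f := by
  unfold rho
  rw [tr_smul, dl_smul, smul_sub]
  congr 1
  exact smul_comm _ _ _

theorem rho_dl {r i : ℕ} (u : Module.Basis (Fin r) F U) (hi : (r : F) - i ≠ 0)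
    (τ : U [⋀^Fin i]→ₗ[F] F) : rho u (dl LinearMap.id τ) = 0 := by
  unfold rho
  rw [tr_dl, dl_smul, smul_smul, inv_mul_cancel₀ hi, one_smul, sub_self]

theorem tr_rho {r i : ℕ} (u : Module.Basis (Fin r) F U) (hi : (r : F) - i ≠ 0)
    (f : U [⋀^Fin (i + 1)]→ₗ[F] U) : tr u u (rho u f) = 0 := by
  unfold rho
  rw [tr_sub, tr_smul, tr_dl, smul_smul, inv_mul_cancel₀ hi, one_smul, sub_self]

theorem rho_indep {r i : ℕ} (u u' : Module.Basis (Fin r) F U)
    (f : U [⋀^Fin (i + 1)]→ₗ[F] U) : rho u f = rho u' f := by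
  unfold rho
  rw [tr_indep u u']

end Pool.Agent.MPd118f9.Rel
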