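import Pool.Agent.Lib.MP_d118f9_ag_R.SkB

/-!
# MP_d118f9_ag, relative part: the induction on the number of arguments in the kernel

Text: `/team-store/TEXT_d118f9_REL.md` (and `TEXT_d118f9_PC.md`).
-/

set_option autoImplicit false

noncomputable section

open Fin Function

namespace Pool.Agent.MPd118f9.Rel

variable {F : Type} [Field F]
variable {W A U : Type} [AddCommGroup W] [Module F W] [AddCommGroup A] [Module F A]
  [AddCommGroup U] [Module F U]

theorem int_pow_smul {M : Type} [AddCommGroup M] [Module F M] (j : ℕ) (x : M) :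
    (-1 : ℤ) ^ j • x = (-1 : F) ^ j • x := by
  rcases Nat.even_or_odd j with h5 | h5
  · rw [h5.neg_one_pow, h5.neg_one_pow, one_smul, one_smul]
  · rw [h5.neg_one_pow, h5.neg_one_pow, neg_smul, one_smul, neg_smul, one_smul]

/-- `f` vanishes if the first `j` arguments are in the kernel of `p`. -/
def Van {n : ℕ} (p : W →ₗ[F] U) (j : ℕ) (f : W [⋀^Fin n]→ₗ[F] A) : Prop :=
  ∀ c : Fin n → W, (∀ l : Fin n, (l : ℕ) < j → p (c l) = 0) → f c = 0

theorem Van.zero {n : ℕ} (p : W →ₗ[F] U) (f : W [⋀^Fin n]→ₗ[F] A) (h : Van p 0 f) : f = 0 := by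
  ext c
  exact h c fun l hl => absurd hl (Nat.not_lt_zero _)

theorem van_iff {j a : ℕ} (p : W →ₗ[F] U) (f : W [⋀^Fin (j + a)]→ₗ[F] A) :
    Van p j f ↔ ∀ m : Fin j → W, (∀ l, p (m l) = 0) → pe f m = 0 := by
  constructor
  · intro h m hm
    ext x
    refine h _ fun l hl => ?_
    have h1 : l = castAdd a ⟨l, hl⟩ := rfl
    rw [h1, Fin.append_left]
    exact hm _
  · intro h c hc
    have h1 := h (fun i => c (castAdd a i)) (fun l => hc _ l.isLt)
    have h2 : pe f (fun i => c (castAdd a i)) (fun i => c (natAdd j i)) = 0 := by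
      rw [h1]
      rfl
    rw [pe_apply, Fin.append_castAdd_natAdd] at h2
    exact h2

/-- A form that vanishes if the first argument is in the kernel of `p` depends only on the values
of `p`. -/
theorem desc {n : ℕ} (p : W →ₗ[F] U) (f : W [⋀^Fin n]→ₗ[F] A)
    (hf : ∀ (x : Fin n → W) (l : Fin n), (l : ℕ) = 0 → p (x l) = 0 → f x = 0)
    (x y : Fin n → W) (hxy : ∀ l, p (x l) = p (y l)) : f x = f y := by
  classical
  have hf' : ∀ (x : Fin n → W) (l : Fin n), p (x l) = 0 → f x = 0 := by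
    intro x l hl
    cases n with
    | zero => exact l.elim0
    | succ n =>
      have h1 := f.neg_one_pow_smul_map_insertNth l (x l) (l.removeNth x)
      rw [Fin.insertNth_self_removeNth] at h1
      have h2 : f (Matrix.vecCons (x l) (l.removeNth x)) = 0 := by
        refine hf _ 0 rfl ?_
        rw [Matrix.cons_val_zero]
        exact hl
      rw [h2] at h1
      rcases neg_one_pow_eq_or ℤ (l : ℕ) with h3 | h3
      · rw [h3, one_smul] at h1
        exact h1
      · rw [h3, neg_smul, one_smul, neg_eq_zero] at h1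
        exact h1
  have h1 : ∀ s : Finset (Fin n), f (s.piecewise y x) = f x := by
    intro s
    induction s using Finset.induction_on with
    | empty => rw [Finset.piecewise_empty]
    | insert a s ha ih =>
      rw [Finset.piecewise_insert]
      have h2 := f.map_update_sub (s.piecewise y x) a (y a) (x a)
      have h3 : f (update (s.piecewise y x) a (y a - x a)) = 0 := by
        refine hf' _ a ?_
        rw [update_self, map_sub, hxy a, sub_self]
      have h4 : update (s.piecewise y x) a (x a) = s.piecewise y x := by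
        rw [update_eq_self_iff, Finset.piecewise_eq_of_notMem _ _ _ ha]
      rw [h3, h4, ih] at h2
      exact (sub_eq_zero.1 h2.symm)
  have h2 := h1 Finset.univ
  rw [Finset.piecewise_univ] at h2
  exact h2.symm

theorem exists_section (p : W →ₗ[F] U) (hp : Surjective p) : ∃ g : U →ₗ[F] W, ∀ x, p (g x) = x := by
  obtain ⟨g, hg⟩ := p.exists_rightInverse_of_surjective (LinearMap.range_eq_top.2 hp)
  exact ⟨g, fun x => LinearMap.congr_fun hg x⟩

/-- The form on `U` induced by a form `f` that vanishes for `j + 1` arguments in the kernel. -/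
theorem pe_desc {j i : ℕ} (p : W →ₗ[F] U) (f : W [⋀^Fin (j + i + 1)]→ₗ[F] A) (hf : Van p (j + 1) f)
    (m : Fin j → W) (hm : ∀ l, p (m l) = 0) (x y : Fin (i + 1) → W) (hxy : ∀ l, p (x l) = p (y l)) :
    pe (a := i + 1) f m x = pe (a := i + 1) f m y := by
  refine desc p _ (fun z l hl hz => ?_) x y hxy
  rw [pe_apply]
  refine hf _ fun q hq => ?_
  by_cases h : (q : ℕ) < j
  · have h1 : q = castAdd (i + 1) ⟨q, h⟩ := rfl
    rw [h1]
    have h2 := Fin.append_left m z ⟨q, h⟩
    rw [h2]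
    exact hm _
  · have h1 : q = natAdd j l := by
      refine Fin.ext ?_
      rw [Fin.val_natAdd, hl]
      omega
    rw [h1]
    have h2 := Fin.append_right m z l
    rw [h2]
    exact hz

/-- The main step. -/
theorem step_lt {j i r : ℕ} (p : W →ₗ[F] U) (hp : Surjective p) (u : Module.Basis (Fin r) F U)
    (h : Fin r → W) (hh : ∀ b, p (h b) = u b) (f : W [⋀^Fin (j + i + 1)]→ₗ[F] U)
    (hf : Van p (j + 1) f)
    (hR : ∀ m : Fin j → W, (∀ l, p (m l) = 0) → ∀ g : U →ₗ[F] W, (∀ x, p (g x) = x) →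
      rho u ((pe (a := i + 1) f m).compLinearMap g) = 0) :
    Van p j (f - ((r : F) - i)⁻¹ • dl p (tr u h f)) := by
  obtain ⟨g, hg⟩ := exists_section p hp
  refine (van_iff (a := i + 1) p _).2 fun m hm => ?_
  have h1 : (pe (a := i + 1) f m) =
      ((pe (a := i + 1) f m).compLinearMap g).compLinearMap p := by
    ext x
    rw [AlternatingMap.compLinearMap_apply, AlternatingMap.compLinearMap_apply]
    exact pe_desc p f hf m hm _ _ fun l => (hg _).symm
  have h2 := pe_dl (a := i) p (tr u h f) m hm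
  rw [pe_tr (a := i)] at h2
  have h3 : dl p ((-1 : ℤ) ^ j • tr u h (pe (a := i + 1) f m)) =
      (-1 : ℤ) ^ j • dl p (tr u h (pe (a := i + 1) f m)) := by
    rw [int_pow_smul (F := F), dl_smul, ← int_pow_smul]
  rw [h3, smul_smul, ← pow_add, Even.neg_one_pow ⟨_, rfl⟩, one_smul] at h2
  have h4 : pe (a := i + 1) (f - ((r : F) - i)⁻¹ • dl p (tr u h f)) m =
      pe (a := i + 1) f m - ((r : F) - i)⁻¹ • pe (a := i + 1) (dl p (tr u h f)) m := rfl
  rw [h4, h2]
  have h5 : tr u h (pe (a := i + 1) f m) =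
      (tr u u ((pe (a := i + 1) f m).compLinearMap g)).compLinearMap p := by
    conv_lhs => rw [h1]
    exact tr_comp u p h hh _
  have h6 : dl p (tr u h (pe (a := i + 1) f m)) =
      (dl LinearMap.id (tr u u ((pe (a := i + 1) f m).compLinearMap g))).compLinearMap p := by
    rw [h5, dl_comp, LinearMap.id_comp]
  rw [h6]
  have h7 := hR m hm g hg
  unfold rho at h7
  have h8 : pe (a := i + 1) f m - ((r : F) - i)⁻¹ •
      (dl LinearMap.id (tr u u ((pe (a := i + 1) f m).compLinearMap g))).compLinearMap p =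
      (((pe (a := i + 1) f m).compLinearMap g) - ((r : F) - i)⁻¹ •
      (dl LinearMap.id (tr u u ((pe (a := i + 1) f m).compLinearMap g)))).compLinearMap p := by
    conv_lhs =>
      enter [1]
      rw [h1]
    rfl
  rw [h8, h7]
  rfl

theorem step_ge {j i r : ℕ} (p : W →ₗ[F] U) (hp : Surjective p) (u : Module.Basis (Fin r) F U)
    (hi : r ≤ i) (f : W [⋀^Fin (j + i + 1)]→ₗ[F] U) (hf : Van p (j + 1) f) : Van p j f := by
  obtain ⟨g, hg⟩ := exists_section p hp
  refine (van_iff (a := i + 1) p _).2 fun m hm => ?_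
  ext x
  have h1 : pe (a := i + 1) f m x =
      ((pe (a := i + 1) f m).compLinearMap g) (fun l => p (x l)) := by
    rw [AlternatingMap.compLinearMap_apply]
    exact pe_desc p f hf m hm _ _ fun l => (hg _).symm
  rw [h1]
  refine AlternatingMap.map_linearDependent _ _ fun h2 => ?_
  have : Module.Finite F U := Module.Finite.of_basis u
  have h3 := h2.fintype_card_le_finrank
  rw [Module.finrank_eq_card_basis u, Fintype.card_fin, Fintype.card_fin] at h3
  omega

/-- `ρ` of the partial evaluations does not see `δ τ`. -/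
theorem rho_pe_sub {j i r : ℕ} (p : W →ₗ[F] U) (u : Module.Basis (Fin r) F U)
    (hi : (r : F) - i ≠ 0)
    (s : W [⋀^Fin (j + i + 1)]→ₗ[F] U) (τ : W [⋀^Fin (j + i)]→ₗ[F] F) (m : Fin j → W)
    (hm : ∀ l, p (m l) = 0) (g : U →ₗ[F] W) (hg : ∀ x, p (g x) = x) :
    rho u ((pe (a := i + 1) (s - dl p τ) m).compLinearMap g) =
      rho u ((pe (a := i + 1) s m).compLinearMap g) := by
  have h1 : (pe (a := i + 1) s m) = (pe (a := i + 1) (s - dl p τ) m) + (-1 : F) ^ j •
      dl p (pe τ m) := by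
    have h2 := pe_dl (a := i) p τ m hm
    have h3 : (-1 : ℤ) ^ j • dl p (pe τ m) = (-1 : F) ^ j • dl p (pe τ m) := int_pow_smul _ _
    have h4 : (pe (a := i + 1) (s - dl p τ) m) =
        (pe (a := i + 1) s m) - (pe (a := i + 1) (dl p τ) m) := rfl
    rw [h4, h2, h3, sub_add_cancel]
  have h2 : (pe (a := i + 1) s m).compLinearMap g =
      (pe (a := i + 1) (s - dl p τ) m).compLinearMap g +
        (-1 : F) ^ j • dl LinearMap.id ((pe τ m).compLinearMap g) := by
    rw [h1]
    have h3 : p.comp g = LinearMap.id := LinearMap.ext hg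
    rw [← h3, ← dl_comp]
    rfl
  rw [h2, rho_add, rho_smul, rho_dl u hi, smul_zero, add_zero]

/-- **The induction.** -/
theorem skeleton [CharZero F] {r : ℕ} (p : W →ₗ[F] U) (hp : Surjective p)
    (u : Module.Basis (Fin r) F U) (h : Fin r → W) (hh : ∀ b, p (h b) = u b)
    (Good : ∀ n : ℕ, (W [⋀^Fin (n + 1)]→ₗ[F] U) → Prop)
    (P : ∀ n : ℕ, (W [⋀^Fin n]→ₗ[F] F) → Prop)
    (hgood : ∀ n (s : W [⋀^Fin (n + 1)]→ₗ[F] U), Good n s → Van p (n + 1) s)
    (hP0 : ∀ n, P n 0)
    (hP : ∀ n (s : W [⋀^Fin (n + 1)]→ₗ[F] U) (τ : W [⋀^Fin n]→ₗ[F] F) (q : ℕ), Good n s →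
      P n τ → q ≠ 0 → P n (τ + (q : F)⁻¹ • tr u h (s - dl p τ)))
    (H : ∀ j i (s : W [⋀^Fin (j + i + 1)]→ₗ[F] U), Good (j + i) s → i < r →
      (∃ τ, Van p (j + 1) (s - dl p τ)) → ∀ m : Fin j → W, (∀ l, p (m l) = 0) →
      ∀ g : U →ₗ[F] W, (∀ x, p (g x) = x) → rho u ((pe (a := i + 1) s m).compLinearMap g) = 0)
    (n : ℕ) (s : W [⋀^Fin (n + 1)]→ₗ[F] U) (hs : Good n s) :
    ∃ τ : W [⋀^Fin n]→ₗ[F] F, P n τ ∧ s = dl p τ := by
  have key : ∀ a, a ≤ n + 1 → ∃ τ : W [⋀^Fin n]→ₗ[F] F, P n τ ∧ Van p (n + 1 - a) (s - dl p τ) := by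
    intro a
    induction a with
    | zero =>
      intro _
      refine ⟨0, hP0 n, ?_⟩
      have h1 : dl p (0 : W [⋀^Fin n]→ₗ[F] F) = 0 := wdg_zero _
      rw [h1, sub_zero]
      exact hgood n s hs
    | succ a ih =>
      intro ha
      obtain ⟨τ, h1, h2⟩ := ih (by omega)
      obtain ⟨j, hj⟩ : ∃ j, n + 1 - a = j + 1 := ⟨n - a, by omega⟩
      obtain ⟨i, hi⟩ : ∃ i, n = j + i := ⟨n - j, by omega⟩
      have hj' : n + 1 - (a + 1) = j := by omega
      rw [hj] at h2
      rw [hj']
      clear hj hj' ha ih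
      subst hi
      by_cases hir : i < r
      · refine ⟨τ + ((r - i : ℕ) : F)⁻¹ • tr u h (s - dl p τ), hP _ s τ _ hs h1 (by omega), ?_⟩
        have h3 := step_lt p hp u h hh (s - dl p τ) h2 (by
          intro m hm g hg
          have hne : (r : F) - i ≠ 0 := by
            rw [sub_ne_zero]
            exact_mod_cast (by omega : r ≠ i)
          rw [rho_pe_sub p u hne s τ m hm g hg]
          exact H j i s hs hir ⟨τ, h2⟩ m hm g hg)
        have h4 : s - dl p (τ + ((r - i : ℕ) : F)⁻¹ • tr u h (s - dl p τ)) =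
            s - dl p τ - ((r : F) - i)⁻¹ • dl p (tr u h (s - dl p τ)) := by
          rw [dl_add, dl_smul, Nat.cast_sub (le_of_lt hir), sub_sub]
        rw [h4]
        exact h3
      · exact ⟨τ, h1, step_ge p hp u (by omega) _ h2⟩
  obtain ⟨τ, h1, h2⟩ := key (n + 1) le_rfl
  rw [Nat.sub_self] at h2
  exact ⟨τ, h1, sub_eq_zero.1 (Van.zero p _ h2)⟩

end Pool.Agent.MPd118f9.Rel
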