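import Pool.Agent.Lib.MP_d118f9_ag_R.SkC
import Pool.Agent.Lib.MP_d118f9_ag.Defs

/-!
# MP_d118f9_ag, relative part: alternating forms from alternating index functions

Text: `/team-store/TEXT_d118f9_REL.md` (and `TEXT_d118f9_PC.md`).
-/

set_option autoImplicit false

noncomputable section

open Fin Function

namespace Pool.Agent.MPd118f9.Rel

variable {F : Type} [Field F] [CharZero F]
variable {A : Type} [AddCommGroup A] [Module F A] {n g : ℕ}

/-- The alternating form on `F^g` whose values at the standard basis vectors are `f I`. -/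
def ofI (f : (Fin n → Fin g) → A) (hf : Alt f) : (Fin g → F) [⋀^Fin n]→ₗ[F] A where
  toMultilinearMap := ∑ I : Fin n → Fin g,
    ((MultilinearMap.mkPiAlgebra F (Fin n) F).compLinearMap
      (fun j => (LinearMap.proj (I j) : (Fin g → F) →ₗ[F] F))).smulRight (f I)
  map_eq_zero_of_eq' := by
    intro c p q hpq hne
    have h0 : ∀ c : Fin n → Fin g → F, (∑ I : Fin n → Fin g,
        ((MultilinearMap.mkPiAlgebra F (Fin n) F).compLinearMap
          (fun j => (LinearMap.proj (I j) : (Fin g → F) →ₗ[F] F))).smulRight (f I)) c =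
        ∑ I : Fin n → Fin g, (∏ j, c j (I j)) • f I := by
      intro c
      simp
    show (∑ I : Fin n → Fin g,
        ((MultilinearMap.mkPiAlgebra F (Fin n) F).compLinearMap
          (fun j => (LinearMap.proj (I j) : (Fin g → F) →ₗ[F] F))).smulRight (f I)) c = 0
    rw [h0]
    set S := ∑ I : Fin n → Fin g, (∏ j, c j (I j)) • f I with hS
    have h1 : S = -S := by
      conv_lhs => rw [hS, ← ((Equiv.swap p q).arrowCongr (Equiv.refl (Fin g))).sum_comp]
      rw [hS, ← Finset.sum_neg_distrib]
      refine Finset.sum_congr rfl fun I _ => ?_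
      have e1 : ((Equiv.swap p q).arrowCongr (Equiv.refl (Fin g))) I = I ∘ Equiv.swap p q := by
        funext x
        simp
      have e2 : f (I ∘ Equiv.swap p q) = -f I := by
        rw [hf (Equiv.swap p q) I, Equiv.Perm.sign_swap hne]
        simp
      have e3 : ∏ j, c j ((I ∘ Equiv.swap p q) j) = ∏ j, c j (I j) := by
        rw [← Equiv.prod_comp (Equiv.swap p q) (fun j => c j ((I ∘ Equiv.swap p q) j))]
        refine Finset.prod_congr rfl fun j _ => ?_
        rw [Function.comp_apply, Equiv.swap_apply_self]
        refine congrFun ?_ _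
        by_cases h1 : j = p
        · subst h1
          rw [Equiv.swap_apply_left]
          exact hpq.symm
        · by_cases h2 : j = q
          · subst h2
            rw [Equiv.swap_apply_right]
            exact hpq
          · rw [Equiv.swap_apply_of_ne_of_ne h1 h2]
      rw [e1, e2, e3, smul_neg]
    have h2 : (2 : F) • S = 0 := by
      rw [two_smul]
      nth_rewrite 1 [h1]
      exact neg_add_cancel S
    exact (smul_eq_zero.1 h2).resolve_left two_ne_zero

theorem ofI_apply (f : (Fin n → Fin g) → A) (hf : Alt f) (c : Fin n → Fin g → F) :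
    ofI f hf c = ∑ I : Fin n → Fin g, (∏ j, c j (I j)) • f I := by
  show (∑ I : Fin n → Fin g,
        ((MultilinearMap.mkPiAlgebra F (Fin n) F).compLinearMap
          (fun j => (LinearMap.proj (I j) : (Fin g → F) →ₗ[F] F))).smulRight (f I)) c = _
  simp

/-- The standard basis vector. -/
abbrev eb (F : Type) [Field F] {g : ℕ} (i : Fin g) : Fin g → F := Pi.single i 1

theorem ofI_single (f : (Fin n → Fin g) → A) (hf : Alt f) (I : Fin n → Fin g) :
    ofI f hf (fun j => eb F (I j)) = f I := by
  classical
  rw [ofI_apply, Finset.sum_eq_single I]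
  · rw [Finset.prod_eq_one, one_smul]
    intro j _
    exact Pi.single_eq_same _ _
  · intro J _ hJ
    obtain ⟨j, hj⟩ := Function.ne_iff.1 hJ
    rw [Finset.prod_eq_zero (Finset.mem_univ j), zero_smul]
    exact Pi.single_eq_of_ne hj _
  · intro h
    exact absurd (Finset.mem_univ I) h

omit [CharZero F] in
/-- Two alternating forms that agree on the standard basis vectors are equal. -/
theorem ext_eb {f f' : (Fin g → F) [⋀^Fin n]→ₗ[F] A}
    (h : ∀ I : Fin n → Fin g, f (fun j => eb F (I j)) = f' (fun j => eb F (I j))) : f = f' := by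
  refine Module.Basis.ext_alternating (Pi.basisFun F (Fin g)) fun I _ => ?_
  have h1 : (fun j => (Pi.basisFun F (Fin g)) (I j)) = fun j => eb F (I j) := by
    funext j
    exact Pi.basisFun_apply _ _ _
  rw [h1]
  exact h I

omit [CharZero F] in
theorem alt_of_form (f : (Fin g → F) [⋀^Fin n]→ₗ[F] A) :
    Alt fun I : Fin n → Fin g => f (fun j => eb F (I j)) := by
  intro σ I
  have h1 := f.map_perm (fun j => eb F (I j)) σ
  rw [Units.smul_def] at h1
  exact h1

/-- Expansion of a form in the standard basis. -/
theorem form_expand (f : (Fin g → F) [⋀^Fin n]→ₗ[F] A) (c : Fin n → Fin g → F) :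
    f c = ∑ I : Fin n → Fin g, (∏ j, c j (I j)) • f (fun j => eb F (I j)) := by
  have h1 : f = ofI (fun I => f (fun j => eb F (I j))) (alt_of_form f) := by
    refine ext_eb fun I => ?_
    rw [ofI_single]
  conv_lhs => rw [h1]
  rw [ofI_apply]

end Pool.Agent.MPd118f9.Rel
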