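import Pool.Agent.Lib.MP_d118f9_ag_R.SkD
import Pool.Agent.Lib.MP_d118f9_ag_G.Defs

/-!
# MP_d118f9_ag, relative part: the orders of the values of `ρ`

Text: `/team-store/TEXT_d118f9_REL.md`.
-/

set_option autoImplicit false
set_option linter.unusedSectionVars false

noncomputable section

open Classical Fin Function

namespace Pool.Agent.MPd118f9.Rel

section Ord

variable {k F : Type} [Field k] [Field F] [Algebra k F] {Q : Pt k F}

theorem leOrd_sum {κ : Type} {n : ℤ} (s : Finset κ) {f : κ → F} (hf : ∀ b ∈ s, LeOrd Q n (f b)) :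
    LeOrd Q n (∑ b ∈ s, f b) := by
  induction s using Finset.induction_on with
  | empty =>
    rw [Finset.sum_empty]
    exact LeOrd.zero _ _
  | insert a s ha ih =>
    rw [Finset.sum_insert ha]
    exact (hf a (Finset.mem_insert_self _ _)).add
      (ih fun b hb => hf b (Finset.mem_insert_of_mem hb))

theorem leOrd_prod {κ : Type} (s : Finset κ) {ν : κ → ℤ} {f : κ → F}
    (hf : ∀ b ∈ s, LeOrd Q (ν b) (f b)) : LeOrd Q (∑ b ∈ s, ν b) (∏ b ∈ s, f b) := by
  induction s using Finset.induction_on with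
  | empty =>
    rw [Finset.sum_empty, Finset.prod_empty]
    have h1 := LeOrd.const Q (1 : k)
    rwa [map_one] at h1
  | insert a s ha ih =>
    rw [Finset.sum_insert ha, Finset.prod_insert ha]
    exact (hf a (Finset.mem_insert_self _ _)).mul
      (ih fun b hb => hf b (Finset.mem_insert_of_mem hb))

theorem leOrd_zsmul {n : ℤ} {f : F} (a : ℤ) (hf : LeOrd Q n f) : LeOrd Q n (a • f) := by
  have h1 := hf.smul ((a : ℤ) : k)
  rwa [Int.cast_smul_eq_zsmul] at h1

theorem leOrd_inv_nat [CharZero k] {n : ℤ} {f : F} (q : ℕ) (hf : LeOrd Q n f) :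
    LeOrd Q n ((q : F)⁻¹ * f) := by
  have h1 := hf.smul ((q : k)⁻¹)
  rwa [Algebra.smul_def, map_inv₀, map_natCast] at h1

end Ord

variable {k F : Type} [Field k] [CharZero k] [Field F] [CharZero F] [Algebra k F] {Q : Pt k F}
variable {U : Type} [AddCommGroup U] [Module F U] {g r : ℕ}

/-- The coordinates of `y` vanish to order at least `n` at `Q`. -/
def Cf (Q : Pt k F) (u : Module.Basis (Fin r) F U) (n : ℤ) (y : U) : Prop :=
  ∀ b, LeOrd Q n (u.repr y b)

omit [CharZero k] [CharZero F] in
theorem Cf.zero (u : Module.Basis (Fin r) F U) (n : ℤ) : Cf Q u n 0 := by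
  intro b
  rw [map_zero]
  exact LeOrd.zero _ _

omit [CharZero k] [CharZero F] in
theorem Cf.add {u : Module.Basis (Fin r) F U} {n : ℤ} {y z : U} (hy : Cf Q u n y)
    (hz : Cf Q u n z) : Cf Q u n (y + z) := by
  intro b
  rw [map_add, Finsupp.add_apply]
  exact (hy b).add (hz b)

omit [CharZero k] [CharZero F] in
theorem Cf.smul {u : Module.Basis (Fin r) F U} {n m : ℤ} {a : F} {y : U} (ha : LeOrd Q m a)
    (hy : Cf Q u n y) : Cf Q u (m + n) (a • y) := by
  intro b
  rw [map_smul, Finsupp.smul_apply, smul_eq_mul]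
  exact ha.mul (hy b)

omit [CharZero k] [CharZero F] in
theorem Cf.sub {u : Module.Basis (Fin r) F U} {n : ℤ} {y z : U} (hy : Cf Q u n y)
    (hz : Cf Q u n z) : Cf Q u n (y - z) := by
  intro b
  rw [map_sub, Finsupp.sub_apply]
  exact (hy b).sub (hz b)

omit [CharZero k] [CharZero F] in
theorem Cf.zsmul {u : Module.Basis (Fin r) F U} {n : ℤ} (a : ℤ) {y : U}
    (hy : Cf Q u n y) : Cf Q u n (a • y) := by
  intro b
  rw [map_zsmul, Finsupp.smul_apply]
  exact leOrd_zsmul a (hy b)

omit [CharZero k] [CharZero F] in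
theorem Cf.sum {κ : Type} {u : Module.Basis (Fin r) F U} {n : ℤ} (s : Finset κ) {f : κ → U}
    (hf : ∀ b ∈ s, Cf Q u n (f b)) : Cf Q u n (∑ b ∈ s, f b) := by
  intro c
  rw [map_sum, Finsupp.coe_finsetSum, Finset.sum_apply]
  exact leOrd_sum s fun b hb => hf b hb c

omit [CharZero k] [CharZero F] in
/-- The value of a form with integral coefficients. -/
theorem cf_form {n : ℕ} (u : Module.Basis (Fin r) F U) (s : (Fin g → F) [⋀^Fin n]→ₗ[F] U)
    (hs : ∀ I : Fin n → Fin g, Cf Q u 0 (s fun j => eb F (I j))) (c : Fin n → Fin g → F)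
    (ν : Fin n → ℤ) (hc : ∀ l t, LeOrd Q (ν l) (c l t)) [CharZero F] :
    Cf Q u (∑ l, ν l) (s c) := by
  rw [form_expand]
  refine Cf.sum _ fun I _ => ?_
  have h1 := Cf.smul (leOrd_prod Finset.univ fun l _ => hc l (I l)) (hs I)
  rwa [add_zero] at h1

/-- The section with the values `eb (idx b)` at the basis `u`. -/
def sec (u : Module.Basis (Fin r) F U) (idx : Fin r → Fin g) : U →ₗ[F] (Fin g → F) :=
  u.constr F fun b => eb F (idx b)

omit [CharZero F] in
theorem sec_basis (u : Module.Basis (Fin r) F U) (idx : Fin r → Fin g) (b : Fin r) :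
    sec u idx (u b) = eb F (idx b) := by
  unfold sec
  rw [Module.Basis.constr_basis]

omit [CharZero F] in
theorem proj_sec (p : (Fin g → F) →ₗ[F] U) (u : Module.Basis (Fin r) F U) (idx : Fin r → Fin g)
    (hp : ∀ b, p (eb F (idx b)) = u b) (x : U) : p (sec u idx x) = x := by
  have h1 : p.comp (sec u idx) = LinearMap.id := by
    refine u.ext fun b => ?_
    rw [LinearMap.comp_apply, sec_basis, hp]
    rfl
  exact LinearMap.congr_fun h1 x

omit [CharZero k] [CharZero F] in
theorem leOrd_eb (i t : Fin g) : LeOrd Q 0 (eb F i t) := by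
  by_cases h : t = i
  · subst h
    have h1 := LeOrd.const Q (1 : k)
    rw [map_one] at h1
    rw [show eb F t t = 1 from Pi.single_eq_same _ _]
    exact h1
  · rw [show eb F i t = 0 from Pi.single_eq_of_ne h _]
    exact LeOrd.zero _ _

omit [CharZero k] [CharZero F] in
theorem leOrd_sec (u : Module.Basis (Fin r) F U) (idx : Fin r → Fin g) {x : U} {ν : ℤ}
    (hx : Cf Q u ν x) (t : Fin g) : LeOrd Q ν (sec u idx x t) := by
  unfold sec
  rw [Module.Basis.constr_apply_fintype]
  rw [Finset.sum_apply]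
  refine leOrd_sum _ fun b _ => ?_
  rw [Pi.smul_apply, smul_eq_mul]
  have h1 := (hx b).mul (leOrd_eb (Q := Q) (idx b) t)
  rwa [add_zero] at h1

/-- The orders of the values of `ρ (s (m, ·))`. -/
theorem cf_rho {j i : ℕ} (hir : i < r) (u : Module.Basis (Fin r) F U) (idx : Fin r → Fin g)
    (s : (Fin g → F) [⋀^Fin (j + i + 1)]→ₗ[F] U)
    (hs : ∀ I : Fin (j + i + 1) → Fin g, Cf Q u 0 (s fun j => eb F (I j)))
    (m : Fin j → Fin g → F) (δ : Fin j → ℤ) (hm : ∀ l t, LeOrd Q (-δ l) (m l t))
    (x : Fin (i + 1) → U) (ν : Fin (i + 1) → ℤ) (hx : ∀ l, Cf Q u (ν l) (x l)) :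
    Cf Q u (∑ l, ν l - ∑ l, δ l)
      (rho u ((pe (a := i + 1) s m).compLinearMap (sec u idx)) x) := by
  have key : ∀ (c : Fin (i + 1) → Fin g → F) (ν : Fin (i + 1) → ℤ),
      (∀ l t, LeOrd Q (ν l) (c l t)) → Cf Q u (∑ l, ν l - ∑ l, δ l) (pe (a := i + 1) s m c) := by
    intro c ν hc
    rw [pe_apply]
    have h1 := cf_form (n := j + i + 1) u s hs (Fin.append m c : Fin (j + (i + 1)) → Fin g → F)
      (Fin.append (fun l => -δ l) ν : Fin (j + (i + 1)) → ℤ) (by
        intro l t
        have h2 : ∀ l : Fin (j + (i + 1)), LeOrd Q ((Fin.append (fun l => -δ l) ν) l)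
            ((Fin.append m c : Fin (j + (i + 1)) → Fin g → F) l t) := by
          intro l
          induction l using Fin.addCases with
          | left l =>
            rw [Fin.append_left, Fin.append_left]
            exact hm l t
          | right l =>
            rw [Fin.append_right, Fin.append_right]
            exact hc l t
        exact h2 l)
    have h3 : (∑ l : Fin (j + (i + 1)), (Fin.append (fun l => -δ l) ν : Fin (j + (i + 1)) → ℤ) l) =
        ∑ l, ν l - ∑ l, δ l := by
      rw [Fin.sum_univ_add]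
      simp only [Fin.append_left, Fin.append_right, Finset.sum_neg_distrib]
      ring
    rw [← h3]
    exact h1
  unfold rho
  rw [AlternatingMap.sub_apply, AlternatingMap.smul_apply]
  refine Cf.sub ?_ ?_
  · rw [AlternatingMap.compLinearMap_apply]
    exact key _ ν fun l t => leOrd_sec u idx (hx l) t
  · rw [dl_apply, Finset.smul_sum]
    refine Cf.sum _ fun l _ => ?_
    rw [smul_comm]
    refine Cf.zsmul _ ?_
    rw [LinearMap.id_apply, smul_smul]
    have hsum : ∑ l, ν l - ∑ l, δ l = (∑ l', ν (l.succAbove l') - ∑ l, δ l) + ν l := by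
      rw [Fin.sum_univ_succAbove ν l]
      ring
    rw [hsum]
    refine Cf.smul ?_ (hx l)
    have h1 : ((r : F) - (i : F))⁻¹ = (algebraMap k F) ((((r - i : ℕ) : k))⁻¹) := by
      rw [map_inv₀, map_natCast, Nat.cast_sub (le_of_lt hir)]
    rw [h1, ← Algebra.smul_def]
    refine LeOrd.smul _ ?_
    rw [tr_apply]
    refine leOrd_sum _ fun b _ => ?_
    rw [AlternatingMap.compLinearMap_apply]
    have h2 := key (fun q => sec u idx ((Fin.cons (u b) (l.removeNth x) : Fin (i + 1) → U) q))
      (Fin.cons 0 fun l' => ν (l.succAbove l')) (by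
        intro q t
        refine Fin.cases ?_ (fun q => ?_) q
        · rw [Fin.cons_zero, Fin.cons_zero, sec_basis]
          exact leOrd_eb _ _
        · rw [Fin.cons_succ, Fin.cons_succ]
          exact leOrd_sec u idx (hx _) t)
    rw [Fin.sum_univ_succ, Fin.cons_zero, zero_add] at h2
    simp only [Fin.cons_succ] at h2
    exact h2 b

end Pool.Agent.MPd118f9.Rel
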