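import Pool.Agent.Lib.MP_d118f9_ag_R.SkE
import Pool.Agent.Lib.MP_d118f9_ag_G.TDeg

/-!
# MP_d118f9_ag, relative part: the lattices `K_Q(WK - n Q)`

Text: `/team-store/TEXT_d118f9_REL.md`.
-/

set_option autoImplicit false
set_option linter.unusedSectionVars false

noncomputable section

open Classical Fin Function

namespace Pool.Agent.MPd118f9.Rel

variable {k F K : Type} [Field k] [IsAlgClosed k] [CharZero k] [Field F] [Field K] [Algebra k F]
  [Algebra k K] [Algebra F K] [IsScalarTower k F K] [FiniteDimensional F K]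

/-- `x ∈ K_Q(WK - n Q)`. -/
def GQ (WK : Dv k K) (Q : Pt k F) (n : ℤ) (x : K) : Prop :=
  ∀ P : Pt k K, P.below = Q → LeOrd P (n * (P.ram F : ℤ) - WK P) x

theorem gq_zero_iff {WK : Dv k K} {Q : Pt k F} {x : K} : GQ WK Q 0 x ↔ LeQ Q WK x := by
  unfold GQ LeQ
  simp

theorem GQ.zero (WK : Dv k K) (Q : Pt k F) (n : ℤ) : GQ WK Q n 0 :=
  fun P _ => LeOrd.zero P _

theorem GQ.add {WK : Dv k K} {Q : Pt k F} {n : ℤ} {x y : K} (hx : GQ WK Q n x)
    (hy : GQ WK Q n y) : GQ WK Q n (x + y) := fun P hP => (hx P hP).add (hy P hP)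

theorem leOrd_map {P : Pt k K} {Q : Pt k F} (hP : P.below = Q) {m : ℤ} {f : F}
    (hf : LeOrd Q m f) : LeOrd P (m * (P.ram F : ℤ)) (algebraMap F K f) := by
  rcases hf with h | h
  · rw [h, map_zero]
    exact LeOrd.zero _ _
  · refine Or.inr ?_
    rw [P.ord_map, hP, mul_comm]
    exact mul_le_mul_of_nonneg_left h (Int.natCast_nonneg _)

theorem GQ.smul {WK : Dv k K} {Q : Pt k F} {n m : ℤ} {f : F} {x : K} (hf : LeOrd Q m f)
    (hx : GQ WK Q n x) : GQ WK Q (m + n) (f • x) := by
  intro P hP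
  have h1 := (leOrd_map (K := K) hP hf).mul (hx P hP)
  rw [← Algebra.smul_def] at h1
  have h2 : m * (P.ram F : ℤ) + (n * (P.ram F : ℤ) - WK P) = (m + n) * (P.ram F : ℤ) - WK P := by
    ring
  rwa [h2] at h1

theorem GQ.mono {WK : Dv k K} {Q : Pt k F} {n m : ℤ} {x : K} (h : m ≤ n) (hx : GQ WK Q n x) :
    GQ WK Q m x := fun P hP => (hx P hP).mono (by
  have h1 := mul_le_mul_of_nonneg_right h (Int.natCast_nonneg (P.ram F))
  linarith)

theorem GQ.sum {κ : Type} {WK : Dv k K} {Q : Pt k F} {n : ℤ} (s : Finset κ) {f : κ → K}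
    (hf : ∀ b ∈ s, GQ WK Q n (f b)) : GQ WK Q n (∑ b ∈ s, f b) :=
  fun P hP => leOrd_sum s fun b hb => hf b hb P hP

theorem mem_L_iff_gq (hK : IsCurve k K) {WK : Dv k K} {C : Dv k F} {x : K} :
    x ∈ L (WK + pull K (-C)) ↔ ∀ Q : Pt k F, GQ WK Q (C Q) x := by
  have key : ∀ P : Pt k K, -(WK + pull K (-C)) P = C P.below * (P.ram F : ℤ) - WK P := by
    intro P
    rw [Finsupp.add_apply, pull_apply hK, Finsupp.neg_apply]
    ring
  constructor
  · intro h Q P hP
    subst hP
    rw [← key P]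
    rcases h with h | h
    · exact Or.inl h
    · exact Or.inr (h P)
  · intro h
    by_cases hx : x = 0
    · exact Or.inl hx
    · refine Or.inr fun P => ?_
      rw [key P]
      exact (h P.below P rfl).resolve_left hx

theorem mem_L_iff_leQ {D : Dv k K} {x : K} :
    x ∈ L D ↔ ∀ Q : Pt k F, LeQ Q D x := by
  constructor
  · intro h Q P _
    rcases h with h | h
    · exact Or.inl h
    · exact Or.inr (h P)
  · intro h
    by_cases hx : x = 0
    · exact Or.inl hx
    · exact Or.inr fun P => (h P.below P rfl).resolve_left hx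

theorem exists_unifQ (Q : Pt k F) (n : ℤ) : ∃ t : F, t ≠ 0 ∧ Q.ord t = n := exists_ord_eq Q n

/-- The local basis describes all the lattices. -/
theorem gq_iff_cf {WK : Dv k K} {Q : Pt k F} {U : Submodule F K} {r : ℕ}
    (u : Module.Basis (Fin r) F U)
    (h0 : ∀ x : U, GQ WK Q 0 (x : K) ↔ Cf Q u 0 x) (n : ℤ) (x : U) :
    GQ WK Q n (x : K) ↔ Cf Q u n x := by
  obtain ⟨t, ht0, ht⟩ := exists_unifQ Q n
  have hti : LeOrd Q (-n) t⁻¹ := Or.inr (by rw [Q.ord_inv, ht])
  have htl : LeOrd Q n t := Or.inr ht.ge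
  have hx : x = t • (t⁻¹ • x) := by
    rw [smul_smul, mul_inv_cancel₀ ht0, one_smul]
  constructor
  · intro h
    have h1 : GQ WK Q 0 ((t⁻¹ • x : U) : K) := by
      have h2 := h.smul hti
      rw [neg_add_cancel] at h2
      exact h2
    have h2 := Cf.smul htl ((h0 _).1 h1)
    rw [add_zero, ← hx] at h2
    exact h2
  · intro h
    have h1 : Cf Q u 0 (t⁻¹ • x) := by
      have h2 := Cf.smul hti h
      rwa [neg_add_cancel] at h2
    have h2 := ((h0 _).2 h1).smul htl
    rw [add_zero] at h2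
    rw [hx]
    exact h2

/-- The trace of an element of `K_Q(WK - n Q)`. -/
theorem GQ.trace {W : Dv k F} {WK : Dv k K} (h : IsRel W WK) {Q : Pt k F} {n : ℤ} {x : K}
    (hx : GQ WK Q n x) : LeOrd Q (n - W Q) (Algebra.trace F K x) := by
  obtain ⟨t, ht0, ht⟩ := exists_unifQ Q n
  have hti : LeOrd Q (-n) t⁻¹ := Or.inr (by rw [Q.ord_inv, ht])
  have htl : LeOrd Q n t := Or.inr ht.ge
  have h1 := hx.smul hti
  rw [neg_add_cancel] at h1
  have h2 := h.tr Q _ (gq_zero_iff.1 h1)
  rw [map_smul, smul_eq_mul] at h2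
  have h3 := htl.mul h2
  rw [← mul_assoc, mul_inv_cancel₀ ht0, one_mul] at h3
  rwa [sub_eq_add_neg]

/-- An element of large order has trace `0`. -/
theorem trace_eq_zero (hF : IsCurve k F) (hK : IsCurve k K) {W : Dv k F} {WK : Dv k K}
    (h : IsRel W WK) {C : Dv k F} (hC : 2 * (genus k F : ℤ) - 2 < deg C) {x : K}
    (hx : x ∈ L (WK + pull K (-C))) : Algebra.trace F K x = 0 := by
  have h1 : Algebra.trace F K x ∈ L (W - C) := by
    by_cases h0 : Algebra.trace F K x = 0
    · exact Or.inl h0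
    · refine Or.inr fun Q => ?_
      have h2 := (((mem_L_iff_gq hK).1 hx Q).trace h).resolve_left h0
      rw [Finsupp.sub_apply]
      linarith
  have h2 : deg (W - C) < 0 := by
    rw [deg_sub, h.canF.1]
    linarith
  have h3 : ell (W - C) = 0 := hF.ell_of_deg_neg h2
  have h4 := hF.finDim (W - C)
  have h5 : L (W - C) = ⊥ := Submodule.finrank_eq_zero.1 h3
  rw [h5] at h1
  exact h1

/-- The elements `κ` that map the elements of trace zero to such elements are in `F`. -/
theorem mem_range_of_trace [CharZero F] {κ : K}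
    (h : ∀ x : K, Algebra.trace F K x = 0 → Algebra.trace F K (κ * x) = 0) :
    ∃ a : F, κ = algebraMap F K a := by
  set d : ℕ := Module.finrank F K with hd
  have hd0 : (d : F) ≠ 0 := by
    rw [Nat.cast_ne_zero]
    exact (Module.finrank_pos).ne'
  set a : F := Algebra.trace F K κ / d with ha
  refine ⟨a, ?_⟩
  by_contra hne
  have hy : κ - algebraMap F K a ≠ 0 := sub_ne_zero.2 hne
  set y : K := κ - algebraMap F K a with hydef
  have hty : Algebra.trace F K y = 0 := by
    rw [hydef, map_sub, Algebra.trace_algebraMap, nsmul_eq_mul, ha]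
    rw [← hd]
    field_simp
    ring
  have h1 : ∀ x : K, Algebra.trace F K x = 0 → Algebra.trace F K (y * x) = 0 := by
    intro x hx
    rw [hydef, sub_mul, map_sub, h x hx, ← Algebra.smul_def, map_smul, hx, smul_zero, sub_zero]
  have h2 : ∀ z : K, Algebra.trace F K (y * z) = 0 := by
    intro z
    have h3 : Algebra.trace F K (z - algebraMap F K (Algebra.trace F K z / d)) = 0 := by
      rw [map_sub, Algebra.trace_algebraMap, nsmul_eq_mul, ← hd]
      field_simp
      ring
    have h4 := h1 _ h3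
    rw [mul_sub, map_sub, mul_comm y (algebraMap F K _), ← Algebra.smul_def, map_smul, hty,
      smul_zero, sub_zero] at h4
    exact h4
  have h3 := h2 y⁻¹
  rw [mul_inv_cancel₀ hy] at h3
  have h4 : Algebra.trace F K 1 = (d : F) := by
    have h5 := Algebra.trace_algebraMap (R := F) (S := K) 1
    rw [map_one, nsmul_eq_mul, mul_one] at h5
    exact h5
  rw [h4] at h3
  exact hd0 h3

end Pool.Agent.MPd118f9.Rel
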