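import Pool.Agent.Lib.MP_d118f9_ag_R.SkF

/-!
# MP_d118f9_ag, relative part: cocycles

Text: `/team-store/TEXT_d118f9_REL.md`.
-/

set_option autoImplicit false
set_option linter.unusedSectionVars false

noncomputable section

open Classical Fin Function

namespace Pool.Agent.MPd118f9.Rel

section Coc

variable {F K W W' : Type} [Field F] [Field K] [Algebra F K] [AddCommGroup W] [Module F W]
  [AddCommGroup W'] [Module F W'] {U : Submodule F K}

/-- `x, y ↦ p x * y`. -/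
def mk (p : W →ₗ[F] U) : W →ₗ[F] U →ₗ[F] K where
  toFun x := (LinearMap.mulLeft F (p x : K)).comp U.subtype
  map_add' x y := by
    ext z
    simp [add_mul]
  map_smul' a x := by
    ext z
    simp

@[simp] theorem mk_apply (p : W →ₗ[F] U) (x : W) (y : U) : mk p x y = (p x : K) * (y : K) := rfl

/-- `p ∧ f = 0`. -/
def Coc {n : ℕ} (p : W →ₗ[F] U) (f : W [⋀^Fin n]→ₗ[F] U) : Prop := wdg (mk p) f = 0

theorem Coc.apply {n : ℕ} {p : W →ₗ[F] U} {f : W [⋀^Fin n]→ₗ[F] U} (h : Coc p f)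
    (c : Fin (n + 1) → W) :
    ∑ l : Fin (n + 1), (-1 : ℤ) ^ (l : ℕ) • ((p (c l) : K) * (f (l.removeNth c) : K)) = 0 := by
  have h1 := wdg_apply (mk p) f c
  rw [h] at h1
  exact h1.symm

theorem coc_pe {j a : ℕ} {p : W →ₗ[F] U} {f : W [⋀^Fin (j + a)]→ₗ[F] U} (h : Coc p f)
    (m : Fin j → W) (hm : ∀ l, p (m l) = 0) : Coc p (pe f m) := by
  have h1 := pe_wdg (mk p) f m (fun l => by
    ext y
    rw [mk_apply, hm l]
    simp)
  unfold Coc at h ⊢
  rw [h] at h1
  have h2 : (-1 : ℤ) ^ j • wdg (mk p) (pe f m) = 0 := h1.symm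
  rcases neg_one_pow_eq_or ℤ j with h3 | h3
  · rwa [h3, one_smul] at h2
  · rwa [h3, neg_smul, one_smul, neg_eq_zero] at h2

theorem coc_comp {n : ℕ} {p : W →ₗ[F] U} {f : W [⋀^Fin n]→ₗ[F] U} (h : Coc p f)
    (g : W' →ₗ[F] W) : Coc (p.comp g) (f.compLinearMap g) := by
  unfold Coc at h ⊢
  have h1 := wdg_comp (mk p) f g
  rw [h] at h1
  exact h1.symm

theorem coc_dl {n : ℕ} (p : W →ₗ[F] U) (τ : W [⋀^Fin n]→ₗ[F] F) : Coc p (dl p τ) := by
  refine wdg_wdg (sc p) (mk p) (fun x y a => ?_) τ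
  simp only [sc_apply, mk_apply, Submodule.coe_smul]
  rw [mul_smul_comm, mul_smul_comm, mul_comm]

theorem coc_rho {i r : ℕ} (u : Module.Basis (Fin r) F U) {f : U [⋀^Fin (i + 1)]→ₗ[F] U}
    (h : Coc LinearMap.id f) : Coc LinearMap.id (rho u f) := by
  have h1 := coc_dl LinearMap.id (tr u u f)
  unfold Coc at h h1 ⊢
  unfold rho
  rw [wdg_sub, wdg_smul, h, h1, smul_zero, sub_zero]

theorem van_of_coc {n : ℕ} {p : W →ₗ[F] U} {s : W [⋀^Fin n]→ₗ[F] U} (h : Coc p s) {x : W}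
    (hx : p x ≠ 0) : Van p n s := by
  intro c hc
  have h1 := h.apply (Fin.cons x c)
  rw [Fin.sum_univ_succ, Finset.sum_eq_zero, add_zero] at h1
  · rw [Fin.val_zero, pow_zero, one_smul, Fin.cons_zero] at h1
    have h2 : (0 : Fin (n + 1)).removeNth (Fin.cons x c : Fin (n + 1) → W) = c := rfl
    rw [h2] at h1
    have h3 : (s c : K) = 0 := (mul_eq_zero.1 h1).resolve_left (fun h4 => hx (Subtype.ext h4))
    exact Subtype.ext h3
  · intro l _
    rw [Fin.cons_succ, hc l l.isLt]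
    simp

/-- A cocycle that vanishes if the first argument is `u₀ ≠ 0` is `0`. -/
theorem coc_eq_zero {i : ℕ} {R : U [⋀^Fin (i + 1)]→ₗ[F] U} (h : Coc LinearMap.id R) {u₀ : U}
    (hu₀ : u₀ ≠ 0) (h0 : R.curryLeft u₀ = 0) : R = 0 := by
  ext x
  have h1 := h.apply (Fin.cons u₀ x)
  rw [Fin.sum_univ_succ, Finset.sum_eq_zero, add_zero] at h1
  · rw [Fin.val_zero, pow_zero, one_smul, Fin.cons_zero] at h1
    have h2 : (0 : Fin (i + 2)).removeNth (Fin.cons u₀ x : Fin (i + 2) → U) = x := rfl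
    rw [h2] at h1
    have h3 := (mul_eq_zero.1 h1).resolve_left (fun h4 => hu₀ (Subtype.ext h4))
    rw [h3]
    rfl
  · intro l _
    rw [removeNth_succ_cons]
    have h2 : R (Fin.cons u₀ (l.removeNth x)) = R.curryLeft u₀ (l.removeNth x) := rfl
    rw [h2, h0]
    simp

/-- Forms in one variable. -/
theorem coc_one {R : U [⋀^Fin (0 + 1)]→ₗ[F] U} (h : Coc LinearMap.id R) :
    ∃ κ : K, ∀ x : Fin 1 → U, (R x : K) = κ * (x 0 : K) := by
  by_cases hU : ∃ x₀ : U, x₀ ≠ 0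
  · obtain ⟨x₀, hx₀⟩ := hU
    have hx₀' : (x₀ : K) ≠ 0 := fun h4 => hx₀ (Subtype.ext h4)
    refine ⟨(R (fun _ => x₀) : K) / (x₀ : K), fun x => ?_⟩
    have h1 := h.apply (Fin.cons x₀ x)
    rw [Fin.sum_univ_succ] at h1
    simp only [Finset.univ_unique, Fin.default_eq_zero, Finset.sum_singleton] at h1
    have h2 : (0 : Fin 2).removeNth (Fin.cons x₀ x : Fin 2 → U) = x := rfl
    have h3 : (Fin.succ (0 : Fin 1)).removeNth (Fin.cons x₀ x : Fin 2 → U) = fun _ => x₀ := by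
      funext q
      rw [Subsingleton.elim q 0]
      rfl
    rw [h2, h3] at h1
    simp only [Fin.cons_zero, Fin.cons_succ, Fin.val_zero, pow_zero, one_smul, LinearMap.id_apply,
      Fin.val_succ, zero_add, pow_one, neg_smul] at h1
    field_simp
    linear_combination h1
  · push Not at hU
    refine ⟨0, fun x => ?_⟩
    rw [hU (R x)]
    simp

/-- A cocycle in one variable that is the multiplication with an element of `F` and has trace `0`
is `0`. -/
theorem coc_one_zero [CharZero F] {r : ℕ} (hr : 0 < r) (u : Module.Basis (Fin r) F U)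
    {R : U [⋀^Fin (0 + 1)]→ₗ[F] U} {a : F} (ha : ∀ x : Fin 1 → U, (R x : K) = algebraMap F K a *
    (x 0 : K)) (htr : tr u u R = 0) : R = 0 := by
  have h1 : ∀ x : Fin 1 → U, R x = a • x 0 := by
    intro x
    refine Subtype.ext ?_
    rw [ha x, Submodule.coe_smul, Algebra.smul_def]
  have h2 : tr u u R Fin.elim0 = (r : F) * a := by
    rw [tr_apply]
    have h3 : ∀ b : Fin r, u.repr (R (Fin.cons (u b) Fin.elim0)) b = a := by
      intro b
      have h4 := h1 (Fin.cons (u b) Fin.elim0)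
      rw [h4, Fin.cons_zero, map_smul, Finsupp.smul_apply, Module.Basis.repr_self,
        Finsupp.single_eq_same, smul_eq_mul, mul_one]
    rw [Finset.sum_congr rfl fun b _ => h3 b]
    simp
  rw [htr] at h2
  have h3 : a = 0 := by
    have h4 : (r : F) * a = 0 := h2.symm
    exact (mul_eq_zero.1 h4).resolve_left (Nat.cast_ne_zero.2 hr.ne')
  ext x
  rw [h1 x, h3, zero_smul]
  rfl

end Coc

/-! ### Elements of maximal degree -/

variable {k F K : Type} [Field k] [IsAlgClosed k] [CharZero k] [Field F] [Field K] [Algebra k F]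
  [Algebra k K] [Algebra F K] [IsScalarTower k F K] [FiniteDimensional F K]

/-- There is an element `u₀ ≠ 0` of trace `0` in `L(WK - f^*D)` with `deg D` maximal. -/
theorem exists_max (hF : IsCurve k F) (hK : IsCurve k K) (WK : Dv k K) {w : K} (hw : w ≠ 0)
    (htw : Algebra.trace F K w = 0) {D₀ : Dv k F} (hwD : w ∈ L (WK + pull K (-D₀))) :
    ∃ (u₀ : K) (D : Dv k F), u₀ ≠ 0 ∧ Algebra.trace F K u₀ = 0 ∧ u₀ ∈ L (WK + pull K (-D)) ∧
      deg D₀ ≤ deg D ∧ ∀ (y : K) (C : Dv k F), y ≠ 0 → Algebra.trace F K y = 0 →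
        y ∈ L (WK + pull K (-C)) → deg C ≤ deg D := by
  have hb : ∀ z : ℤ, (∃ (y : K) (C : Dv k F), y ≠ 0 ∧ Algebra.trace F K y = 0 ∧
      y ∈ L (WK + pull K (-C)) ∧ deg C = z) → z ≤ |deg WK| := by
    rintro z ⟨y, C, hy, -, hyC, rfl⟩
    have h1 : 0 ≤ deg (WK + pull K (-C)) := by
      by_contra hlt
      rw [not_le] at hlt
      have h2 := hK.ell_of_deg_neg hlt
      have h3 := hK.finDim (WK + pull K (-C))
      have h4 : L (WK + pull K (-C)) = ⊥ := Submodule.finrank_eq_zero.1 h2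
      rw [h4] at hyC
      exact hy hyC
    rw [deg_add, deg_pull_cov hF hK, deg_neg] at h1
    have hd : (1 : ℤ) ≤ Module.finrank F K := by
      exact_mod_cast (Module.finrank_pos : 0 < Module.finrank F K)
    rcases le_or_gt (deg C) 0 with h5 | h5
    · exact h5.trans (abs_nonneg _)
    · have h6 : deg C ≤ (Module.finrank F K : ℤ) * deg C := by nlinarith
      have h7 : deg C ≤ deg WK := by linarith
      exact h7.trans (le_abs_self _)
  obtain ⟨z, ⟨u₀, D, h1, h2, h3, h4⟩, hz⟩ := Int.exists_greatest_of_bdd ⟨_, hb⟩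
    ⟨deg D₀, w, D₀, hw, htw, hwD, rfl⟩
  refine ⟨u₀, D, h1, h2, h3, ?_, ?_⟩
  · rw [h4]
    exact hz _ ⟨w, D₀, hw, htw, hwD, rfl⟩
  · intro y C hy hty hyC
    rw [h4]
    exact hz _ ⟨y, C, hy, hty, hyC, rfl⟩

/-- The statement on orders of values. -/
def Reg {i : ℕ} {U : Submodule F K} (WK : Dv k K) (D' : Dv k F)
    (R : U [⋀^Fin (i + 1)]→ₗ[F] U) : Prop :=
  ∀ (Q : Pt k F) (x : Fin (i + 1) → U) (ν : Fin (i + 1) → ℤ),
    (∀ l, GQ WK Q (ν l) (x l : K)) → GQ WK Q (∑ l, ν l - D' Q) (R x : K)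

theorem reg_global (hK : IsCurve k K) {i : ℕ} {U : Submodule F K} {WK : Dv k K} {D' : Dv k F}
    {R : U [⋀^Fin (i + 1)]→ₗ[F] U} (h : Reg WK D' R) (x : Fin (i + 1) → U)
    (C : Fin (i + 1) → Dv k F) (hx : ∀ l, (x l : K) ∈ L (WK + pull K (-(C l)))) :
    (R x : K) ∈ L (WK + pull K (-(∑ l, C l - D'))) := by
  rw [mem_L_iff_gq hK]
  intro Q
  have h1 := h Q x (fun l => C l Q) fun l => (mem_L_iff_gq hK).1 (hx l) Q
  have h2 : (∑ l, C l - D') Q = ∑ l, C l Q - D' Q := by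
    rw [Finsupp.sub_apply, Finsupp.coe_finsetSum, Finset.sum_apply]
  rw [h2]
  exact h1

end Pool.Agent.MPd118f9.Rel
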