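import Pool.Agent.Lib.MP_d118f9_ag_R.SkG

/-!
# MP_d118f9_ag, relative part: the claim `R = 0` for forms on the space of trace zero

Text: `/team-store/TEXT_d118f9_REL.md`.
-/

set_option autoImplicit false
set_option linter.unusedSectionVars false

noncomputable section

open Classical Fin Function

namespace Pool.Agent.MPd118f9.Rel

variable {k F K : Type} [Field k] [IsAlgClosed k] [CharZero k] [Field F] [Field K] [Algebra k F]
  [Algebra k K] [Algebra F K] [IsScalarTower k F K] [FiniteDimensional F K]

theorem deg_sum {κ : Type} (s : Finset κ) (C : κ → Dv k F) :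
    deg (∑ l ∈ s, C l) = ∑ l ∈ s, deg (C l) := by
  induction s using Finset.induction_on with
  | empty =>
    rw [Finset.sum_empty, Finset.sum_empty]
    exact deg_zero
  | insert a s ha ih => rw [Finset.sum_insert ha, Finset.sum_insert ha, deg_add, ih]

/-- The claim for `U` the space of the elements of trace `0`. -/
theorem claim_zero [CharZero F] (hF : IsCurve k F) (hK : IsCurve k K) {WK : Dv k K}
    {U : Submodule F K} (hU : ∀ x, x ∈ U ↔ Algebra.trace F K x = 0) {r : ℕ}
    (u : Module.Basis (Fin r) F U) {w : Fin r → K} (hw : LinearIndependent F w) {D₀ : Dv k F}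
    (hwD : ∀ b, w b ∈ VB WK (-D₀)) {i : ℕ} (hir : i < r)
    {R : U [⋀^Fin (i + 1)]→ₗ[F] U} (hR : Coc LinearMap.id R) (htr : tr u u R = 0) {D' : Dv k F}
    (hreg : Reg WK D' R) (hdeg : 1 ≤ i → deg D' < i * deg D₀) : R = 0 := by
  cases i with
  | zero =>
    obtain ⟨κ, hκ⟩ := coc_one hR
    obtain ⟨a, ha⟩ := mem_range_of_trace (F := F) (κ := κ) fun x hx => by
      have h1 := hκ fun _ => ⟨x, (hU x).2 hx⟩
      have h2 := (hU _).1 (R fun _ => ⟨x, (hU x).2 hx⟩).2
      rw [h1] at h2
      exact h2
    exact coc_one_zero hir u (a := a) (fun x => by rw [hκ x, ha]) htr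
  | succ i =>
    have hwU : ∀ b, w b ∈ U := fun b => (hU _).2 (hwD b).2
    set w' : Fin r → U := fun b => ⟨w b, hwU b⟩ with hw'
    have hli : LinearIndependent F w' := by
      refine LinearIndependent.of_comp U.subtype ?_
      exact hw
    have hfin : Module.Finite F U := Module.Finite.of_basis u
    have hcard : Fintype.card (Fin r) = Module.finrank F U :=
      (Module.finrank_eq_card_basis u).symm
    have hne : Nonempty (Fin r) := ⟨⟨0, by omega⟩⟩
    set e := basisOfLinearIndependentOfCardEqFinrank hli hcard with he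
    have hel : ∀ b, e b = w' b := fun b => by
      rw [he, coe_basisOfLinearIndependentOfCardEqFinrank]
    obtain ⟨u₀, D, hu1, hu2, hu3, hu4, hu5⟩ := exists_max hF hK WK
      (hw.ne_zero (⟨0, by omega⟩ : Fin r)) ((hU _).1 (hwU _)) (hwD ⟨0, by omega⟩).1
    refine coc_eq_zero hR (u₀ := ⟨u₀, (hU _).2 hu2⟩) (fun h1 => hu1 (congrArg Subtype.val h1)) ?_
    refine Module.Basis.ext_alternating e fun v _ => ?_
    have h1 : (fun q => e (v q)) = fun q => w' (v q) := funext fun q => hel _
    rw [h1]
    set y : U := R (Fin.cons ⟨u₀, (hU _).2 hu2⟩ fun q => w' (v q)) with hy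
    have h2 : (y : K) ∈ L (WK + pull K (-(∑ l : Fin (i + 2),
        (Fin.cons D fun _ => D₀ : Fin (i + 2) → Dv k F) l - D'))) := by
      refine reg_global hK hreg _ _ fun l => ?_
      refine Fin.cases ?_ (fun q => ?_) l
      · rw [Fin.cons_zero, Fin.cons_zero]
        exact hu3
      · rw [Fin.cons_succ, Fin.cons_succ]
        exact (hwD _).1
    have h3 : y = 0 := by
      by_contra hy0
      have h4 := hu5 (y : K) _ (fun h5 => hy0 (Subtype.ext h5)) ((hU _).1 y.2) h2
      rw [deg_sub, deg_sum, Fin.sum_univ_succ, Fin.cons_zero] at h4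
      simp only [Fin.cons_succ, Finset.sum_const, Finset.card_univ, Fintype.card_fin,
        nsmul_eq_mul] at h4
      have h5 := hdeg (by omega)
      linarith
    exact h3

end Pool.Agent.MPd118f9.Rel
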