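import Pool.Agent.Lib.MP_d118f9_ag_R.SkH

/-!
# MP_d118f9_ag, relative part: the claim `R = 0` for forms on `K` (`h ≥ 1`)

Text: `/team-store/TEXT_d118f9_REL.md`.
-/

set_option autoImplicit false
set_option linter.unusedSectionVars false

noncomputable section

open Classical Fin Function

namespace Pool.Agent.MPd118f9.Rel

variable {k F K : Type} [Field k] [IsAlgClosed k] [CharZero k] [Field F] [Field K] [Algebra k F]
  [Algebra k K] [Algebra F K] [IsScalarTower k F K] [FiniteDimensional F K]

/-- Every point has a function with the exact order `-WK P` at `P` in `K_Q(WK)`. -/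
theorem exists_exact (hK : IsCurve k K) (WK : Dv k K) (P : Pt k K) :
    ∃ y : K, y ≠ 0 ∧ P.ord y = -WK P ∧ GQ WK (P.below : Pt k F) 0 y := by
  set T : Finset (Pt k K) := (finite_fiber hK (P.below : Pt k F)).toFinset.erase P with hT
  obtain ⟨y, h1, h2, h3⟩ := exists_approx (P := P) (T := T) (Finset.notMem_erase _ _) (-WK P)
    (∑ P' ∈ T, |WK P'|)
  refine ⟨y, h1, h2, fun P' hP' => Or.inr ?_⟩
  rw [zero_mul, zero_sub]
  by_cases hP : P' = P
  · rw [hP, h2]
  · have h4 : P' ∈ T := by
      rw [hT, Finset.mem_erase, Set.Finite.mem_toFinset]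
      exact ⟨hP, hP'⟩
    have h5 := h3 P' h4
    have h6 : |WK P'| ≤ ∑ P' ∈ T, |WK P'| :=
      Finset.single_le_sum (f := fun P' : Pt k K => |WK P'|) (fun _ _ => abs_nonneg _) h4
    have h7 := neg_abs_le (WK P')
    have h8 := abs_nonneg (WK P')
    linarith

/-- A multiplier of the lattices. -/
theorem mult_mem (hK : IsCurve k K) {WK : Dv k K} {D' : Dv k F} {κ : K}
    (h : ∀ (Q : Pt k F) (x : K), GQ WK Q 0 x → GQ WK Q (-D' Q) (κ * x)) :
    κ ∈ L (pull K D') := by
  by_cases hκ : κ = 0
  · exact Or.inl hκ
  refine Or.inr fun P => ?_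
  obtain ⟨y, h1, h2, h3⟩ := exists_exact (F := F) hK WK P
  have h4 := (h _ y h3 P rfl).resolve_left (mul_ne_zero hκ h1)
  rw [P.ord_mul hκ h1, h2] at h4
  rw [pull_apply hK]
  linarith

/-- The form in one variable as a linear map. -/
def lin1 {U : Type} [AddCommGroup U] [Module F U] (f : U [⋀^Fin 1]→ₗ[F] U) : U →ₗ[F] U where
  toFun y := f fun _ => y
  map_add' y z := by
    have h1 := f.map_update_add (fun _ => 0) 0 y z
    have h2 : ∀ y : U, update (fun _ : Fin 1 => (0 : U)) 0 y = fun _ => y := by
      intro y
      funext q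
      rw [Subsingleton.elim q 0, update_self]
    rw [h2, h2, h2] at h1
    exact h1
  map_smul' a y := by
    have h1 := f.map_update_smul (fun _ => 0) 0 a y
    have h2 : ∀ y : U, update (fun _ : Fin 1 => (0 : U)) 0 y = fun _ => y := by
      intro y
      funext q
      rw [Subsingleton.elim q 0, update_self]
    rw [h2, h2] at h1
    exact h1

/-- The cocycle condition for a form in two variables. -/
theorem coc_two {U : Submodule F K} {R : U [⋀^Fin 2]→ₗ[F] U} (h : Coc LinearMap.id R)
    (x y z : U) : (x : K) * (R (Fin.cons y fun _ => z) : K) - (y : K) *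
      (R (Fin.cons x fun _ => z) : K) + (z : K) * (R (Fin.cons x fun _ => y) : K) = 0 := by
  have h1 := h.apply (Fin.cons x (Fin.cons y fun _ => z : Fin 2 → U))
  rw [Fin.sum_univ_three] at h1
  have e0 : (0 : Fin 3).removeNth (Fin.cons x (Fin.cons y fun _ => z : Fin 2 → U) : Fin 3 → U) =
      Fin.cons y fun _ => z := rfl
  have e1 : (1 : Fin 3).removeNth (Fin.cons x (Fin.cons y fun _ => z : Fin 2 → U) : Fin 3 → U) =
      Fin.cons x fun _ => z := by
    funext q
    fin_cases q <;> rfl
  have e2 : (2 : Fin 3).removeNth (Fin.cons x (Fin.cons y fun _ => z : Fin 2 → U) : Fin 3 → U) =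
      Fin.cons x fun _ => y := by
    funext q
    fin_cases q <;> rfl
  rw [e0, e1, e2] at h1
  have c0 : (Fin.cons x (Fin.cons y fun _ => z : Fin 2 → U) : Fin 3 → U) 0 = x := rfl
  have c1 : (Fin.cons x (Fin.cons y fun _ => z : Fin 2 → U) : Fin 3 → U) 1 = y := rfl
  have c2 : (Fin.cons x (Fin.cons y fun _ => z : Fin 2 → U) : Fin 3 → U) 2 = z := rfl
  rw [c0, c1, c2] at h1
  simp only [Fin.val_zero, pow_zero, one_smul, LinearMap.id_apply, Fin.val_one, pow_one, neg_smul,
    Fin.val_two, even_two, Even.neg_pow, one_pow] at h1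
  linear_combination h1

/-- The claim for `U = K`. -/
theorem claim_one [CharZero F] (hF : IsCurve k F) (hK : IsCurve k K) {W : Dv k F} {WK : Dv k K}
    (h : IsRel W WK) (hh : 1 ≤ genus k F) {Ψ : ℤ} (hP : Prim k F K Ψ)
    {U : Submodule F K} (hU : ∀ x, x ∈ U) {r : ℕ}
    (u : Module.Basis (Fin r) F U) (hr : r = Module.finrank F K)
    {w : Fin (Module.finrank F K - 1) → K} (hw : LinearIndependent F w) {D₀ : Dv k F}
    (hwD : ∀ b, w b ∈ VB WK (-D₀)) {i : ℕ} (hir : i < r)
    {R : U [⋀^Fin (i + 1)]→ₗ[F] U} (hR : Coc LinearMap.id R) (htr : tr u u R = 0) {D' : Dv k F}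
    (hreg : Reg WK D' R) (hD' : deg D' ≤ Ψ) (hD₀ : 2 * (genus k F : ℤ) - 2 < deg D₀)
    (hdeg : 2 * (genus k F : ℤ) - 2 + deg D' < deg D₀) : R = 0 := by
  cases i with
  | zero =>
    obtain ⟨κ, hκ⟩ := coc_one hR
    have h1 : κ ∈ L (pull K D') := by
      refine mult_mem hK (WK := WK) fun Q x hx => ?_
      have h2 := hreg Q (fun _ => ⟨x, hU x⟩) (fun _ => 0) fun _ => hx
      rw [hκ] at h2
      simp only [Finset.sum_const_zero, zero_sub] at h2
      exact h2
    obtain ⟨a, ha⟩ := hP D' hD' κ h1
    exact coc_one_zero hir u (a := a) (fun x => by rw [hκ x, ha]) htr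
  | succ i =>
    obtain ⟨r', hr'⟩ : ∃ r', Module.finrank F K = r' + 1 := ⟨Module.finrank F K - 1, by omega⟩
    have hr1 : Module.finrank F K - 1 = r' := by omega
    have hdeg0 : deg D' < deg D₀ := by
      have h1 : (1 : ℤ) ≤ genus k F := by exact_mod_cast hh
      linarith
    -- the element `ω`
    obtain ⟨ω₀, hω₀, hω₀0⟩ : ∃ ω₀ : F, ω₀ ∈ L W ∧ ω₀ ≠ 0 := by
      by_contra hcon
      push Not at hcon
      have h1 : L W = ⊥ := by
        rw [eq_bot_iff]
        intro x hx
        exact hcon x hx
      have h2 : ell W = 0 := by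
        unfold ell
        rw [h1]
        exact finrank_bot k F
      have h3 := h.canF.2
      omega
    set ω : K := algebraMap F K ω₀ with hω
    have hωne : ω ≠ 0 := (map_ne_zero_iff _ (algebraMap F K).injective).2 hω₀0
    have hωL : ω ∈ L (WK + pull K (-(0 : Dv k F))) := by
      rw [neg_zero]
      have h0 : pull K (0 : Dv k F) = 0 := by
        ext P
        rw [pull_apply hK]
        simp
      rw [h0, add_zero]
      exact L_mono h.le ((map_mem_pull hK).2 hω₀)
    have hd0 : ((Module.finrank F K : ℕ) : F) ≠ 0 := by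
      rw [Nat.cast_ne_zero]
      omega
    have hωtr : Algebra.trace F K ω ≠ 0 := by
      rw [hω, Algebra.trace_algebraMap, nsmul_eq_mul]
      exact mul_ne_zero hd0 hω₀0
    -- `w` and `ω` are a basis of `K`
    set w' : Fin r' → K := fun b => w (Fin.cast hr1.symm b) with hw'
    have hw'li : LinearIndependent F w' := hw.comp _ (Fin.cast_injective _)
    have hw'D : ∀ b, w' b ∈ VB WK (-D₀) := fun b => hwD _
    have hw'tr : ∀ b, Algebra.trace F K (w' b) = 0 := fun b => (hw'D b).2
    have hspan : ∀ x ∈ Submodule.span F (Set.range w'), Algebra.trace F K x = 0 := by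
      intro x hx
      have h1 : Submodule.span F (Set.range w') ≤ LinearMap.ker (Algebra.trace F K) := by
        rw [Submodule.span_le]
        rintro _ ⟨b, rfl⟩
        exact hw'tr b
      exact h1 hx
    have hcons : LinearIndependent F (Fin.cons ω w' : Fin (r' + 1) → K) := by
      rw [linearIndependent_finCons]
      exact ⟨hw'li, fun hmem => hωtr (hspan ω hmem)⟩
    set wU : Fin (r' + 1) → U := fun b => ⟨(Fin.cons ω w' : Fin (r' + 1) → K) b, hU _⟩ with hwU
    have hwUli : LinearIndependent F wU := by
      refine LinearIndependent.of_comp U.subtype ?_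
      exact hcons
    have hfin : Module.Finite F U := Module.Finite.of_basis u
    have hcard : Fintype.card (Fin (r' + 1)) = Module.finrank F U := by
      rw [Module.finrank_eq_card_basis u, Fintype.card_fin, Fintype.card_fin, hr, hr']
    set e := basisOfLinearIndependentOfCardEqFinrank hwUli hcard with he
    have hel : ∀ b, e b = wU b := fun b => by
      rw [he, coe_basisOfLinearIndependentOfCardEqFinrank]
    -- the degrees of the basis elements
    set CC : Fin (r' + 1) → Dv k F := Fin.cons 0 fun _ => D₀ with hCC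
    have hCL : ∀ b, (wU b : K) ∈ L (WK + pull K (-(CC b))) := by
      intro b
      refine Fin.cases ?_ (fun q => ?_) b
      · exact hωL
      · exact (hw'D q).1
    have hCdeg : ∀ b, 0 ≤ deg (CC b) := by
      intro b
      refine Fin.cases ?_ (fun q => ?_) b
      · show 0 ≤ deg (0 : Dv k F)
        rw [deg_zero]
      · show 0 ≤ deg D₀
        have h1 : (1 : ℤ) ≤ genus k F := by exact_mod_cast hh
        linarith
    have hC1 : ∀ b, b ≠ 0 → deg (CC b) = deg D₀ := by
      intro b hb
      obtain ⟨q, rfl⟩ := Fin.exists_succ_eq.2 hb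
      rfl
    -- the element of maximal degree
    have hr'0 : 0 < r' := by omega
    obtain ⟨u₀, D, hu1, hu2, hu3, hu4, hu5⟩ := exists_max hF hK WK
      (hw'li.ne_zero (⟨0, hr'0⟩ : Fin r')) (hw'tr _) (hw'D ⟨0, hr'0⟩).1
    have hbig : ∀ (y : K) (C : Dv k F), y ∈ L (WK + pull K (-C)) → deg D < deg C → y = 0 := by
      intro y C hy hC
      by_contra hy0
      have h1 : Algebra.trace F K y = 0 :=
        trace_eq_zero hF hK h (C := C) (by linarith) hy
      have h2 := hu5 y C hy0 h1 hy
      linarith
    set uU : U := ⟨u₀, hU u₀⟩ with huU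
    have huU0 : uU ≠ 0 := fun h1 => hu1 (congrArg Subtype.val h1)
    have hvan : ∀ v : Fin (i + 1) → Fin (r' + 1), (∃ q, v q ≠ 0) →
        R (Fin.cons uU fun q => wU (v q)) = 0 := by
      rintro v ⟨q₀, hq₀⟩
      refine Subtype.ext (hbig _ _ (reg_global hK hreg _
        (Fin.cons D fun q => CC (v q)) fun l => ?_) ?_)
      · refine Fin.cases ?_ (fun q => ?_) l
        · exact hu3
        · exact hCL _
      · rw [deg_sub, deg_sum, Fin.sum_univ_succ, Fin.cons_zero]
        simp only [Fin.cons_succ]
        have h1 : deg D₀ ≤ ∑ q, deg (CC (v q)) := by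
          rw [← hC1 _ hq₀]
          exact Finset.single_le_sum (f := fun q => deg (CC (v q))) (fun q _ => hCdeg _)
            (Finset.mem_univ q₀)
        linarith
    cases i with
    | zero =>
      -- `R` vanishes at `u₀, x` for `x` of trace `0`
      have hrepr : ∀ x : U, Algebra.trace F K (x : K) = 0 → e.repr x 0 = 0 := by
        intro x hx
        have h1 : (x : K) = ∑ b, e.repr x b • (wU b : K) := by
          have h2 := congrArg Subtype.val (e.sum_repr x)
          rw [← h2]
          rw [Submodule.coe_sum]
          refine Finset.sum_congr rfl fun b _ => ?_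
          rw [Submodule.coe_smul, hel]
        have h2 : Algebra.trace F K (x : K) = e.repr x 0 * Algebra.trace F K ω := by
          rw [h1, map_sum, Fin.sum_univ_succ, Finset.sum_eq_zero, add_zero]
          · rw [map_smul, smul_eq_mul]
            rfl
          · intro q _
            rw [map_smul]
            have h3 : Algebra.trace F K (wU (Fin.succ q) : K) = 0 := hw'tr q
            rw [h3, smul_zero]
        rw [hx] at h2
        exact (mul_eq_zero.1 h2.symm).resolve_right hωtr
      have hB1 : ∀ x : U, Algebra.trace F K (x : K) = 0 → R (Fin.cons uU fun _ => x) = 0 := by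
        intro x hx
        have h1 : R (Fin.cons uU fun _ => x) = lin1 (R.curryLeft uU) x := rfl
        rw [h1]
        conv_lhs => rw [← e.sum_repr x]
        rw [map_sum, Fin.sum_univ_succ, hrepr x hx, zero_smul, map_zero, zero_add]
        refine Finset.sum_eq_zero fun q _ => ?_
        rw [map_smul, hel]
        have h2 : lin1 (R.curryLeft uU) (wU (Fin.succ q)) = 0 :=
          hvan (fun _ => Fin.succ q) ⟨0, Fin.succ_ne_zero _⟩
        rw [h2, smul_zero]
      have hB2 : ∀ x y : U, Algebra.trace F K (x : K) = 0 → Algebra.trace F K (y : K) = 0 →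
          R (Fin.cons x fun _ => y) = 0 := by
        intro x y hx hy
        have h1 := coc_two hR uU x y
        rw [hB1 y hy, hB1 x hx] at h1
        simp only [Submodule.coe_zero, mul_zero, sub_zero, add_zero] at h1
        exact Subtype.ext ((mul_eq_zero.1 h1).resolve_left hu1)
      set ωU : U := wU 0 with hωU
      set κ : K := (R (Fin.cons uU fun _ => ωU) : K) / u₀ with hκ
      have hB3 : ∀ x : U, Algebra.trace F K (x : K) = 0 →
          (R (Fin.cons x fun _ => ωU) : K) = κ * (x : K) := by
        intro x hx
        have h1 := coc_two hR uU x ωU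
        rw [hB1 x hx] at h1
        simp only [Submodule.coe_zero, mul_zero, add_zero] at h1
        rw [hκ]
        have h2 : (uU : K) = u₀ := rfl
        rw [h2] at h1
        field_simp
        linear_combination h1
      have htrw : ∀ q : Fin r', Algebra.trace F K (κ * (wU (Fin.succ q) : K)) = 0 := by
        intro q
        rw [← hB3 _ (hw'tr q)]
        refine trace_eq_zero hF hK h (C := D₀ - D') ?_ ?_
        · rw [deg_sub]
          linarith
        · have h1 := reg_global hK hreg (Fin.cons (wU (Fin.succ q)) fun _ => ωU)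
            (Fin.cons D₀ fun _ => 0) fun l => by
              refine Fin.cases ?_ (fun q' => ?_) l
              · exact (hw'D q).1
              · exact hωL
          rw [Fin.sum_univ_succ] at h1
          simp only [Fin.cons_zero, Fin.cons_succ, Finset.sum_const_zero, add_zero] at h1
          exact h1
      have htrx : ∀ x : K, Algebra.trace F K x = 0 → Algebra.trace F K (κ * x) = 0 := by
        intro x hx
        have h1 : x = ∑ b, e.repr ⟨x, hU x⟩ b • (wU b : K) := by
          have h2 := congrArg Subtype.val (e.sum_repr ⟨x, hU x⟩)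
          rw [Submodule.coe_sum] at h2
          refine h2.symm.trans (Finset.sum_congr rfl fun b _ => ?_)
          rw [Submodule.coe_smul, hel]
        rw [h1, Finset.mul_sum, map_sum, Fin.sum_univ_succ, hrepr ⟨x, hU x⟩ hx, zero_smul,
          mul_zero, map_zero, zero_add]
        refine Finset.sum_eq_zero fun q _ => ?_
        rw [mul_smul_comm, map_smul, htrw q, smul_zero]
      obtain ⟨a, ha⟩ := mem_range_of_trace htrx
      have hanti : ∀ x y : U, R (Fin.cons x fun _ => y) = -R (Fin.cons y fun _ => x) := by
        intro x y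
        have h1 := R.map_swap (Fin.cons y fun _ => x : Fin 2 → U) (i := 0) (j := 1) (by simp)
        have h2 : (Fin.cons y fun _ => x : Fin 2 → U) ∘ Equiv.swap (0 : Fin 2) 1 =
            Fin.cons x fun _ => y := by
          funext q
          fin_cases q <;> rfl
        rw [h2] at h1
        exact h1
      have hBa : ∀ q : Fin r', R (Fin.cons (wU (Fin.succ q)) fun _ => ωU) =
          a • wU (Fin.succ q) := by
        intro q
        refine Subtype.ext ?_
        rw [hB3 _ (hw'tr q), ha, Submodule.coe_smul, Algebra.smul_def]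
      have ha0 : a = 0 := by
        have h1 : tr e e R (fun _ => ωU) = 0 := by
          rw [← tr_indep u e, htr]
          rfl
        rw [tr_apply, Fin.sum_univ_succ] at h1
        have h2 : R (Fin.cons (e 0) fun _ => ωU) = 0 := by
          rw [hel]
          exact R.map_eq_zero_of_eq _ (i := 0) (j := 1) rfl (by simp)
        have h3 : ∀ q : Fin r', e.repr (R (Fin.cons (e (Fin.succ q)) fun _ => ωU)) (Fin.succ q) =
            a := by
          intro q
          rw [hel, hBa q, map_smul, ← hel, Module.Basis.repr_self, Finsupp.smul_apply,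
            Finsupp.single_eq_same, smul_eq_mul, mul_one]
        have h4 : e.repr (0 : U) 0 = 0 := by simp
        rw [h2, h4, Finset.sum_congr rfl fun q _ => h3 q] at h1
        simp only [Finset.sum_const, Finset.card_univ, Fintype.card_fin, nsmul_eq_mul,
          zero_add] at h1
        exact (mul_eq_zero.1 h1).resolve_left (Nat.cast_ne_zero.2 hr'0.ne')
      refine Module.Basis.ext_alternating e fun v hv => ?_
      have h1 : (fun q => e (v q)) = Fin.cons (wU (v 0)) fun _ => wU (v 1) := by
        funext q
        rw [hel]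
        fin_cases q <;> rfl
      rw [h1]
      show R (Fin.cons (wU (v 0)) fun _ => wU (v 1)) = 0
      rcases Fin.eq_zero_or_eq_succ (v 0) with h2 | ⟨q, h2⟩
      · rcases Fin.eq_zero_or_eq_succ (v 1) with h3 | ⟨q', h3⟩
        · exact absurd (hv (h2.trans h3.symm)) (by simp)
        · rw [h2, h3, hanti, hBa q', ha0, zero_smul, neg_zero]
      · rcases Fin.eq_zero_or_eq_succ (v 1) with h3 | ⟨q', h3⟩
        · rw [h2, h3, hBa q, ha0, zero_smul]
        · rw [h2, h3]
          exact hB2 _ _ (hw'tr q) (hw'tr q')
    | succ i =>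
      refine coc_eq_zero hR huU0 ?_
      refine Module.Basis.ext_alternating e fun v hv => ?_
      have h1 : (fun q => e (v q)) = fun q => wU (v q) := funext fun q => hel _
      rw [h1]
      refine hvan v ?_
      by_contra hcon
      push Not at hcon
      have h2 := hv ((hcon 0).trans (hcon 1).symm)
      exact absurd h2 (by simp)

end Pool.Agent.MPd118f9.Rel
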